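import Mathlib

set_option autoImplicit false

open MeasureTheory Set

namespace Pool.Agent.H522Z.Cube

/-- clamp to the plateau -/
noncomputable def cl (s : ℝ) : ℝ := max (1999 / 4000) (min s (2001 / 4000))

/-- curvature constant -/
noncomputable def kap : ℝ := (4000 / 1999) ^ 2

/-- profile with a plateau around `1/2` -/
noncomputable def J (s : ℝ) : ℝ := 1 - kap * (s - cl s) ^ 2

lemma kap_ge : 4 ≤ kap := by unfold kap; norm_num
lemma kap_le : kap ≤ 401 / 100 := by unfold kap; norm_num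

lemma continuous_J : Continuous J := by
  unfold J cl; fun_prop

lemma cl_cases (s : ℝ) : (s ≤ 1999 / 4000 ∧ cl s = 1999 / 4000) ∨
    (1999 / 4000 ≤ s ∧ s ≤ 2001 / 4000 ∧ cl s = s) ∨ (2001 / 4000 ≤ s ∧ cl s = 2001 / 4000) := by
  unfold cl
  by_cases h1 : s ≤ 1999 / 4000
  · left; refine ⟨h1, ?_⟩
    rw [min_eq_left (by linarith), max_eq_left h1]
  · push Not at h1
    by_cases h2 : s ≤ 2001 / 4000
    · right; left; refine ⟨h1.le, h2, ?_⟩
      rw [min_eq_left h2, max_eq_right h1.le]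
    · push Not at h2
      right; right; refine ⟨h2.le, ?_⟩
      rw [min_eq_right h2.le, max_eq_right (by norm_num)]

lemma cl_mem (s : ℝ) : 1999 / 4000 ≤ cl s ∧ cl s ≤ 2001 / 4000 := by
  rcases cl_cases s with ⟨_, h⟩ | ⟨h1, h2, h⟩ | ⟨_, h⟩ <;> rw [h] <;> constructor <;> linarith

lemma J_plateau {s : ℝ} (h1 : 1999 / 4000 ≤ s) (h2 : s ≤ 2001 / 4000) : J s = 1 := by
  have : cl s = s := by unfold cl; rw [min_eq_left h2, max_eq_right h1]
  unfold J; rw [this]; simp

lemma J_zero : J 0 = 0 := by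
  have : cl 0 = 1999 / 4000 := by unfold cl; norm_num
  unfold J kap; rw [this]; norm_num

lemma J_one : J 1 = 0 := by
  have : cl 1 = 2001 / 4000 := by unfold cl; norm_num
  unfold J kap; rw [this]; norm_num

lemma J_le_one (s : ℝ) : J s ≤ 1 := by
  unfold J; have := kap_ge; nlinarith [sq_nonneg (s - cl s)]

lemma J_ge {s : ℝ} (h0 : 0 ≤ s) (h1 : s ≤ 1) : 4 * s * (1 - s) ≤ J s := by
  unfold J kap
  rcases cl_cases s with ⟨a, h⟩ | ⟨a, b, h⟩ | ⟨a, h⟩ <;> rw [h]
  · nlinarith [mul_nonneg h0 (sub_nonneg.mpr a)]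
  · nlinarith [sq_nonneg (s - 1 / 2)]
  · nlinarith [mul_nonneg (sub_nonneg.mpr h1) (sub_nonneg.mpr a)]

lemma J_nonneg {s : ℝ} (h0 : 0 ≤ s) (h1 : s ≤ 1) : 0 ≤ J s :=
  le_trans (by nlinarith [mul_nonneg h0 (sub_nonneg.mpr h1)]) (J_ge h0 h1)

lemma J_le4 (s : ℝ) : J s ≤ 1 - 4 * (s - cl s) ^ 2 := by
  unfold J; have := kap_ge; nlinarith [sq_nonneg (s - cl s)]

lemma J_le {s : ℝ} (h0 : 0 ≤ s) (h1 : s ≤ 1) : J s ≤ 4 * s * (1 - s) + 1 / 1000 := by
  refine (J_le4 s).trans ?_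
  rcases cl_cases s with ⟨a, h⟩ | ⟨a, b, h⟩ | ⟨a, h⟩ <;> rw [h]
  · nlinarith
  · nlinarith [mul_nonneg (sub_nonneg.mpr a) (sub_nonneg.mpr b)]
  · nlinarith

lemma J_ge_par (s s₀ : ℝ) (h1 : 1999 / 4000 ≤ s₀) (h2 : s₀ ≤ 2001 / 4000) :
    1 - kap * (s - s₀) ^ 2 ≤ J s := by
  unfold J
  have hk := kap_ge
  have : (s - cl s) ^ 2 ≤ (s - s₀) ^ 2 := by
    rcases cl_cases s with ⟨a, h⟩ | ⟨a, b, h⟩ | ⟨a, h⟩ <;> rw [h]
    · nlinarith
    · nlinarith [sq_nonneg (s - s₀)]
    · nlinarith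
  nlinarith

/-- dual certificate for the one-dimensional inequality -/
def Good (A B l : ℝ) : Prop :=
  ∃ (c₀ c₁ : ℝ) (b : ℝ → ℝ), ContinuousOn b (Icc A B) ∧
    (∀ s ∈ Icc A B, 0 ≤ b s ∧ b s ≤ 1 ∧ c₀ + c₁ * s ≤ √(1 - b s ^ 2) * J s) ∧
    J l ≤ c₀ + c₁ * l + ∫ s in A..B, b s

lemma int_sqrt_quad {A B : ℝ} (h : A ≤ B) :
    ∫ s in A..B, √((s - A) * (B - s)) = Real.pi * (B - A) ^ 2 / 8 := by
  rcases eq_or_lt_of_le h with rfl | hlt
  · simp
  set r : ℝ := (B - A) / 2 with hr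
  have hr0 : 0 < r := by rw [hr]; linarith
  have e := intervalIntegral.integral_comp_mul_add (a := -1) (b := 1)
    (fun s => √((s - A) * (B - s))) hr0.ne' ((A + B) / 2)
  rw [show r * -1 + (A + B) / 2 = A by rw [hr]; ring,
    show r * 1 + (A + B) / 2 = B by rw [hr]; ring] at e
  have e2 : ∀ x : ℝ, √((r * x + (A + B) / 2 - A) * (B - (r * x + (A + B) / 2))) =
      r * √(1 - x ^ 2) := by
    intro x
    rw [show (r * x + (A + B) / 2 - A) * (B - (r * x + (A + B) / 2)) = r ^ 2 * (1 - x ^ 2) by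
      rw [hr]; ring, Real.sqrt_mul (sq_nonneg r), Real.sqrt_sq hr0.le]
  simp only [e2] at e
  rw [intervalIntegral.integral_const_mul, integral_sqrt_one_sub_sq, smul_eq_mul] at e
  have : ∫ s in A..B, √((s - A) * (B - s)) = r * (r * (Real.pi / 2)) := by
    rw [e]; field_simp
  rw [this, hr]; ring

theorem good_small {A B l : ℝ} (hA : 0 ≤ A) (hAl : A ≤ l) (hlB : l ≤ B) (hB : B ≤ 1)
    (hD : B - A ≤ 3 / 5) : Good A B l := by
  have hk1 := kap_ge
  have hk2 := kap_le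
  obtain ⟨c1, c2⟩ := cl_mem l
  set s₀ := cl l with hs₀
  refine ⟨1 - kap * (s₀ ^ 2 - A * B), kap * (2 * s₀ - A - B),
    fun s => 32 / 25 * (4000 / 1999) * √((s - A) * (B - s)), by fun_prop, ?_, ?_⟩
  · intro s hs
    have h1 : 0 ≤ (s - A) * (B - s) := mul_nonneg (by linarith [hs.1]) (by linarith [hs.2])
    have h2 : (s - A) * (B - s) ≤ 9 / 100 := by nlinarith [sq_nonneg (2 * s - A - B), hs.1, hs.2]
    set g : ℝ := kap * ((s - A) * (B - s)) with hg
    have hg0 : 0 ≤ g := by positivity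
    have hg1 : g ≤ 3609 / 10000 := by nlinarith
    have hb : (32 / 25 * (4000 / 1999) * √((s - A) * (B - s))) ^ 2 = (32 / 25) ^ 2 * g := by
      rw [mul_pow, mul_pow, Real.sq_sqrt h1, hg]; unfold kap; ring
    have hb0 : 0 ≤ 32 / 25 * (4000 / 1999) * √((s - A) * (B - s)) := by positivity
    refine ⟨hb0, ?_, ?_⟩
    · nlinarith
    · have h3 : 1 - g ≤ √(1 - (32 / 25 * (4000 / 1999) * √((s - A) * (B - s))) ^ 2) := by
        rw [hb]; refine Real.le_sqrt_of_sq_le ?_; nlinarith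
      have h4 := J_ge_par s s₀ c1 c2
      have h5 := J_le_one s
      have h6 := J_nonneg (hA.trans hs.1) (hs.2.trans hB)
      have h7 : 1 - kap * (s₀ ^ 2 - A * B) + kap * (2 * s₀ - A - B) * s =
          1 - kap * (s - s₀) ^ 2 - g := by rw [hg]; ring
      rw [h7]
      calc 1 - kap * (s - s₀) ^ 2 - g ≤ (1 - g) * J s := by nlinarith
        _ ≤ _ := mul_le_mul_of_nonneg_right h3 h6
  · rw [intervalIntegral.integral_const_mul, int_sqrt_quad (hAl.trans hlB)]
    have h7 : 1 - kap * (s₀ ^ 2 - A * B) + kap * (2 * s₀ - A - B) * l =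
        J l - kap * ((l - A) * (B - l)) := by unfold J; rw [← hs₀]; ring
    rw [h7]
    have h8 : (l - A) * (B - l) ≤ (B - A) ^ 2 / 4 := by nlinarith [sq_nonneg (2 * l - A - B)]
    have hpi := Real.pi_gt_d2
    have h9 : kap * ((l - A) * (B - l)) ≤ kap * ((B - A) ^ 2 / 4) :=
      mul_le_mul_of_nonneg_left h8 (by linarith)
    have h10 : kap * ((B - A) ^ 2 / 4) ≤
        32 / 25 * (4000 / 1999) * (Real.pi * (B - A) ^ 2 / 8) := by
      unfold kap
      nlinarith [sq_nonneg (B - A)]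
    linarith

/-- the ratio function -/
noncomputable def rho (P Q s : ℝ) : ℝ := P / s + Q / (1 - s)

lemma contOn_rho {P Q A B : ℝ} (hA : 0 ≤ A) (hB : B ≤ 1) (hP : A = 0 → P = 0)
    (hQ : B = 1 → Q = 0) : ContinuousOn (rho P Q) (Icc A B) := by
  unfold rho
  refine ContinuousOn.add (f := fun s => P / s) (g := fun s => Q / (1 - s)) ?_ ?_
  · by_cases h : A = 0
    · simp only [hP h, zero_div]; exact continuousOn_const
    · refine continuousOn_const.div continuousOn_id fun s hs => ?_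
      have : 0 < A := lt_of_le_of_ne hA (Ne.symm h)
      exact (this.trans_le hs.1).ne'
  · by_cases h : B = 1
    · simp only [hQ h, zero_div]; exact continuousOn_const
    · refine continuousOn_const.div (by fun_prop) fun s hs => ?_
      have : B < 1 := lt_of_le_of_ne hB h
      linarith [hs.2]

lemma good_PQ {P Q A B l : ℝ} (hA : 0 ≤ A) (hB : B ≤ 1) (hP0 : 0 ≤ P) (hQ0 : 0 ≤ Q)
    (hP : A = 0 → P = 0) (hQ : B = 1 → Q = 0) (hρ : ∀ s ∈ Icc A B, rho P Q s ≤ 1)
    (h : J l ≤ 4 * (P * (1 - l) + Q * l) + ∫ s in A..B, √(1 - rho P Q s ^ 2)) : Good A B l := by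
  refine ⟨4 * P, 4 * (Q - P), fun s => √(1 - rho P Q s ^ 2), ?_, ?_, by linarith⟩
  · exact (continuousOn_const.sub ((contOn_rho hA hB hP hQ).pow 2)).sqrt
  · intro s hs
    have hs0 : 0 ≤ s := hA.trans hs.1
    have hs1 : s ≤ 1 := hs.2.trans hB
    have hr0 : 0 ≤ rho P Q s := by
      unfold rho
      exact add_nonneg (div_nonneg hP0 hs0) (div_nonneg hQ0 (by linarith))
    have hr1 := hρ s hs
    refine ⟨Real.sqrt_nonneg _, Real.sqrt_le_one.mpr (by nlinarith), ?_⟩
    rw [Real.sq_sqrt (by nlinarith), sub_sub_cancel, Real.sqrt_sq hr0]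
    have h1 : 4 * P + 4 * (Q - P) * s = rho P Q s * (4 * s * (1 - s)) := by
      unfold rho
      by_cases h0 : s = 0
      · have : P = 0 := hP (le_antisymm (h0 ▸ hs.1) hA)
        rw [h0, this]; simp
      · by_cases h1 : s = 1
        · have : Q = 0 := hQ (le_antisymm hB (h1 ▸ hs.2))
          rw [h1, this]; simp
        · have : 1 - s ≠ 0 := fun h => h1 (by linarith)
          field_simp; ring
    rw [h1]
    exact mul_le_mul_of_nonneg_left (J_ge hs0 hs1) hr0

lemma int_inv_sq {α B : ℝ} (h0 : 0 ≤ α) (h : α ≤ B) :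
    IntervalIntegrable (fun s => (α / s) ^ 2) volume α B ∧ ∫ s in α..B, (α / s) ^ 2 ≤ α := by
  rcases eq_or_lt_of_le h0 with rfl | hpos
  · simp
  have hc : ContinuousOn (fun s => (α / s) ^ 2) (uIcc α B) := by
    rw [uIcc_of_le h]
    exact (continuousOn_const.div continuousOn_id fun s hs => (hpos.trans_le hs.1).ne').pow 2
  refine ⟨hc.intervalIntegrable, ?_⟩
  have hd : ∀ s ∈ uIcc α B, HasDerivAt (fun s => -(α ^ 2 * s⁻¹)) ((α / s) ^ 2) s := by
    intro s hs
    rw [uIcc_of_le h] at hs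
    have hs0 : s ≠ 0 := (hpos.trans_le hs.1).ne'
    have := ((hasDerivAt_inv hs0).const_mul (α ^ 2)).neg
    refine this.congr_deriv ?_
    field_simp
  rw [intervalIntegral.integral_eq_sub_of_hasDerivAt hd hc.intervalIntegrable]
  have : 0 ≤ α ^ 2 * B⁻¹ := by have : 0 < B := by linarith
                               positivity
  have e : α ^ 2 * α⁻¹ = α := by field_simp
  linarith

theorem good_corner {A B l : ℝ} (hA : 0 ≤ A) (hAl : A ≤ l) (hlB : l ≤ B) (hB : B ≤ 1)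
    (hσ : A + (1 - B) ≤ 1 / 50) : Good A B l := by
  set β := 1 - B with hβ
  have hβ0 : 0 ≤ β := by linarith
  have hAB : A ≤ B := hAl.trans hlB
  have hbound : ∀ s ∈ Icc A B, 0 ≤ A / s ∧ 0 ≤ β / (1 - s) ∧ A / s + β / (1 - s) ≤ 50 / 49 := by
    intro s hs
    have hs0 : 0 ≤ s := hA.trans hs.1
    have hs1 : 0 ≤ 1 - s := by linarith [hs.2]
    refine ⟨div_nonneg hA hs0, div_nonneg hβ0 hs1, ?_⟩
    by_cases h0 : s = 0
    · rw [h0]; simp; linarith
    by_cases h1 : 1 - s = 0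
    · rw [h1, show s = 1 by linarith]; simp; linarith
    have hs0' : 0 < s := lt_of_le_of_ne hs0 (Ne.symm h0)
    have hs1' : 0 < 1 - s := lt_of_le_of_ne hs1 (Ne.symm h1)
    rw [div_add_div _ _ h0 h1, div_le_iff₀ (mul_pos hs0' hs1')]
    nlinarith [mul_nonneg (sub_nonneg.mpr hs.1) (sub_nonneg.mpr hs.2), hs.1, hs.2,
      mul_nonneg hA hs1, mul_nonneg hβ0 hs0]
  have hrho : ∀ s, rho (39 / 50 * A) (39 / 50 * β) s = 39 / 50 * (A / s + β / (1 - s)) := by
    intro s; unfold rho; ring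
  refine good_PQ (P := 39 / 50 * A) (Q := 39 / 50 * β) hA hB (by positivity) (by positivity)
    (fun h => by rw [h]; simp) (fun h => by rw [hβ, h]; simp) ?_ ?_
  · intro s hs
    rw [hrho]; linarith [(hbound s hs).2.2]
  obtain ⟨i1, j1⟩ := int_inv_sq hA hAB
  obtain ⟨i2, j2⟩ := int_inv_sq hβ0 (show β ≤ 1 - A by linarith)
  have i3 : IntervalIntegrable (fun s => (β / (1 - s)) ^ 2) volume A B := by
    have := (i2.comp_sub_left 1).symm
    rwa [show 1 - (1 - A) = A by ring, show 1 - β = B by rw [hβ]; ring] at this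
  have j3 : ∫ s in A..B, (β / (1 - s)) ^ 2 ≤ β := by
    rw [intervalIntegral.integral_comp_sub_left (fun s => (β / s) ^ 2) 1]; exact j2
  set c : ℝ := 5 / 8 * (39 / 50) ^ 2 with hc
  have hlow : ∫ s in A..B, (1 - c * 5 * (A ^ 2 + β ^ 2) -
      c * (6 / 5) * ((A / s) ^ 2 + (β / (1 - s)) ^ 2)) ≤
      ∫ s in A..B, √(1 - rho (39 / 50 * A) (39 / 50 * β) s ^ 2) := by
    refine intervalIntegral.integral_mono_on hAB
      (intervalIntegrable_const.sub ((i1.add i3).const_mul _)) ?_ fun s hs => ?_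
    · refine ContinuousOn.intervalIntegrable ?_
      rw [uIcc_of_le hAB]
      exact (continuousOn_const.sub ((contOn_rho hA hB (fun h => by rw [h]; simp)
        (fun h => by rw [hβ, h]; simp)).pow 2)).sqrt
    · obtain ⟨a1, a2, a3⟩ := hbound s hs
      rw [hrho]
      set x := A / s with hx
      set y := β / (1 - s) with hy
      have hxy : x * y = x * β + A * y := by
        by_cases h0 : s = 0
        · have : A = 0 := le_antisymm (h0 ▸ hs.1) hA
          rw [hx, this]; simp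
        by_cases h1 : 1 - s = 0
        · have : β = 0 := by rw [hβ]; linarith [hs.2]
          rw [hy, this]; simp
        rw [hx, hy]; field_simp; ring
      have h2 : (x + y) ^ 2 ≤ 6 / 5 * (x ^ 2 + y ^ 2) + 5 * (A ^ 2 + β ^ 2) := by
        nlinarith [sq_nonneg (x - 5 * β), sq_nonneg (y - 5 * A)]
      set r := 39 / 50 * (x + y) with hr
      have hr0 : 0 ≤ r := by positivity
      have hr1 : r ≤ 4 / 5 := by linarith
      have h3 : 1 - 5 / 8 * r ^ 2 ≤ √(1 - r ^ 2) := by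
        refine Real.le_sqrt_of_sq_le ?_
        have : r ^ 2 ≤ 16 / 25 := by nlinarith
        nlinarith [sq_nonneg r]
      refine le_trans ?_ h3
      have : 5 / 8 * r ^ 2 = c * (x + y) ^ 2 := by rw [hr, hc]; ring
      rw [this]
      have hc0 : 0 ≤ c := by rw [hc]; norm_num
      nlinarith
  rw [intervalIntegral.integral_sub intervalIntegrable_const ((i1.add i3).const_mul _),
    intervalIntegral.integral_const_mul, intervalIntegral.integral_add i1 i3,
    intervalIntegral.integral_const, smul_eq_mul] at hlow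
  refine le_trans ?_ (add_le_add_right hlow _)
  have hJ := J_le4 l
  set σ := A + β with hσ'
  have hσ0 : 0 ≤ σ := by linarith
  have hsq : A ^ 2 + β ^ 2 ≤ σ / 50 := by nlinarith [mul_nonneg hA hβ0]
  have hD : B - A = 1 - σ := by rw [hσ', hβ]; ring
  have h1 : (1 - σ) - c * σ / 10 ≤ (B - A) * (1 - c * 5 * (A ^ 2 + β ^ 2)) := by
    rw [hD, hc]
    have : 0 ≤ A ^ 2 + β ^ 2 := by positivity
    nlinarith [mul_nonneg hσ0 this]
  have h2 : c * (6 / 5) * ((∫ s in A..B, (A / s) ^ 2) + ∫ s in A..B, (β / (1 - s)) ^ 2) ≤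
      c * (6 / 5) * σ := mul_le_mul_of_nonneg_left (by linarith) (by rw [hc]; norm_num)
  have h3 : σ * (1 / 2 - |l - 1 / 2|) ≤ A * (1 - l) + β * l := by
    have a1 := le_abs_self (l - 1 / 2)
    have a2 := neg_abs_le (l - 1 / 2)
    nlinarith [mul_nonneg hA (sub_nonneg.mpr a1), mul_nonneg hβ0 (sub_nonneg.mpr a2)]
  have h4 : |l - 1 / 2| ≤ |l - cl l| + 1 / 4000 := by
    obtain ⟨c1, c2⟩ := cl_mem l
    have a1 := le_abs_self (l - cl l)
    have a2 := neg_abs_le (l - cl l)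
    rw [abs_le]; constructor <;> linarith
  set z := |l - cl l| with hz
  have hz2 : (l - cl l) ^ 2 = z ^ 2 := (sq_abs _).symm
  rw [hz2] at hJ
  have h5 : σ * (1 / 2 - z - 1 / 4000) ≤ A * (1 - l) + β * l := by nlinarith
  rw [hc] at h1 h2 ⊢
  nlinarith [sq_nonneg (2 * z - 39 / 50 * σ)]

end Pool.Agent.H522Z.Cube
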