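import Pool.Agent.H522Z.Cube.CoreA

set_option autoImplicit false

open MeasureTheory Set

namespace Pool.Agent.H522Z.Cube

lemma inv_conv {x y s : ℝ} (hx : 0 < x) (hxs : x ≤ s) (hsy : s ≤ y) :
    (y - x) * (1 / s) ≤ (y - s) * (1 / x) + (s - x) * (1 / y) := by
  have hs : 0 < s := by linarith
  have hy : 0 < y := by linarith
  have : (y - s) * (1 / x) + (s - x) * (1 / y) - (y - x) * (1 / s) =
      (s - x) * (y - s) * (y - x) / (x * y * s) := by field_simp; ring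
  have h2 : 0 ≤ (s - x) * (y - s) * (y - x) / (x * y * s) :=
    div_nonneg (mul_nonneg (mul_nonneg (by linarith) (by linarith)) (by linarith)) (by positivity)
  linarith

lemma rho_conv {P Q x y s : ℝ} (hP : 0 ≤ P) (hQ : 0 ≤ Q) (hx : 0 < x) (hxs : x ≤ s) (hsy : s ≤ y)
    (hy : y < 1) : (y - x) * rho P Q s ≤ (y - s) * rho P Q x + (s - x) * rho P Q y := by
  have h1 := inv_conv hx hxs hsy
  have h2 := inv_conv (x := 1 - y) (s := 1 - s) (y := 1 - x) (by linarith) (by linarith)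
    (by linarith)
  unfold rho
  have e : ∀ a b : ℝ, a / b = a * (1 / b) := fun a b => by ring
  rw [e P s, e P x, e P y, e Q (1 - s), e Q (1 - x), e Q (1 - y)]
  nlinarith [mul_le_mul_of_nonneg_left h1 hP, mul_le_mul_of_nonneg_left h2 hQ]

lemma rho_nonneg {P Q s : ℝ} (hP : 0 ≤ P) (hQ : 0 ≤ Q) (h0 : 0 ≤ s) (h1 : s ≤ 1) :
    0 ≤ rho P Q s := by
  unfold rho
  exact add_nonneg (div_nonneg hP h0) (div_nonneg hQ (by linarith))

lemma ii_b {P Q x y : ℝ} (hx : 0 < x) (hxy : x ≤ y) (hy : y < 1) :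
    IntervalIntegrable (fun s => √(1 - rho P Q s ^ 2)) volume x y := by
  refine ContinuousOn.intervalIntegrable ?_
  rw [uIcc_of_le hxy]
  exact (continuousOn_const.sub ((contOn_rho hx.le hy.le (fun h => absurd h hx.ne')
    (fun h => absurd h hy.ne)).pow 2)).sqrt

lemma trap_one {P Q x y bx bY : ℝ} (hP : 0 ≤ P) (hQ : 0 ≤ Q) (hx : 0 < x) (hxy : x ≤ y)
    (hy : y < 1) (h1 : 0 ≤ bx) (h2 : 0 ≤ bY) (h3 : bx ^ 2 + rho P Q x ^ 2 ≤ 1)
    (h4 : bY ^ 2 + rho P Q y ^ 2 ≤ 1) :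
    (y - x) * (bx + bY) / 2 ≤ ∫ s in x..y, √(1 - rho P Q s ^ 2) := by
  rcases eq_or_lt_of_le hxy with rfl | hlt
  · simp
  have hd : 0 < y - x := by linarith
  have e : ∫ s in x..y, (bx + (bY - bx) / (y - x) * (s - x)) = (y - x) * (bx + bY) / 2 := by
    rw [intervalIntegral.integral_add (by simp) (by
      exact (by fun_prop : Continuous fun s : ℝ => (bY - bx) / (y - x) * (s - x)).intervalIntegrable _ _),
      intervalIntegral.integral_const_mul, intervalIntegral.integral_sub (by simp) (by simp)]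
    simp only [intervalIntegral.integral_const, smul_eq_mul, integral_id]
    field_simp; ring
  rw [← e]
  refine intervalIntegral.integral_mono_on hxy
    ((by fun_prop : Continuous fun s : ℝ => bx + (bY - bx) / (y - x) * (s - x)).intervalIntegrable
      _ _) (ii_b hx hxy hy) fun s hs => ?_
  refine Real.le_sqrt_of_sq_le ?_
  set θ : ℝ := (s - x) / (y - x) with hθ
  have hθ0 : 0 ≤ θ := div_nonneg (by linarith [hs.1]) hd.le
  have hθ1 : θ ≤ 1 := by rw [hθ, div_le_one hd]; linarith [hs.2]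
  have e1 : bx + (bY - bx) / (y - x) * (s - x) = (1 - θ) * bx + θ * bY := by
    rw [hθ]; field_simp; ring
  have e2 : rho P Q s ≤ (1 - θ) * rho P Q x + θ * rho P Q y := by
    have := rho_conv hP hQ hx hs.1 hs.2 hy
    have e3 : (1 - θ) * rho P Q x + θ * rho P Q y =
        ((y - s) * rho P Q x + (s - x) * rho P Q y) / (y - x) := by
      rw [hθ]; field_simp; ring
    rw [e3, le_div_iff₀ hd]; linarith
  have r0 := rho_nonneg hP hQ (hx.le.trans hs.1) (hs.2.trans hy.le)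
  rw [e1]
  set u := rho P Q x
  set v := rho P Q y
  have e4 : rho P Q s ^ 2 ≤ ((1 - θ) * u + θ * v) ^ 2 := pow_le_pow_left₀ r0 e2 2
  have e5 : ((1 - θ) * bx + θ * bY) ^ 2 + ((1 - θ) * u + θ * v) ^ 2 =
      (1 - θ) * (bx ^ 2 + u ^ 2) + θ * (bY ^ 2 + v ^ 2) -
        θ * (1 - θ) * ((bx - bY) ^ 2 + (u - v) ^ 2) := by ring
  have e6 : 0 ≤ θ * (1 - θ) * ((bx - bY) ^ 2 + (u - v) ^ 2) :=
    mul_nonneg (mul_nonneg hθ0 (by linarith)) (by positivity)
  nlinarith [mul_le_mul_of_nonneg_left h3 (sub_nonneg.mpr hθ1), mul_le_mul_of_nonneg_left h4 hθ0]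

/-- node positions (scale `2^24`) -/
def node (A1 B1 i : ℕ) : ℕ := A1 * 4096 + (B1 - A1) * (i * i * (48 - 2 * i))

/-- lower bound for the integrand at a node (scale `2^16`) -/
def bnode (P Q k : ℕ) : ℕ :=
  Nat.sqrt (65536 * 65536 -
    ((P * (16777216 - k) + Q * k) * 65536 / (k * (16777216 - k)) + 1) ^ 2)

/-- trapezoid sum -/
def trap (P Q A1 B1 : ℕ) : ℕ → ℕ
  | 0 => 0
  | i + 1 => trap P Q A1 B1 i + (node A1 B1 (i+1) - node A1 B1 i) *
      (bnode P Q (node A1 B1 i) + bnode P Q (node A1 B1 (i+1)))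

/-- numerical leaf test -/
def leaf (A0 A1 B1 B0 : ℕ) : Bool :=
  decide (A0 < A1) && decide (A1 < B1) && decide (B1 < B0) && decide (B0 ≤ 4096) &&
    decide (2 * 65536 * ((B0 - A0) ^ 2 * 1000 + 4096 * 4096) ≤
      trap (A0 * B0) ((4096 - A0) * (4096 - B0)) A1 B1 16 * 1000)

/-- adaptive covering -/
def cover : ℕ → ℕ → ℕ → ℕ → ℕ → Bool
  | 0, _, _, _, _ => false
  | f + 1, A0, A1, B1, B0 =>
    decide ((B0 - A0) * 5 ≤ 3 * 4096) || decide ((A1 + 4096 - B1) * 50 ≤ 4096) ||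
      leaf A0 A1 B1 B0 ||
      (if B0 - B1 ≤ A1 - A0 then
        cover f A0 ((A0 + A1) / 2) B1 B0 && cover f ((A0 + A1) / 2) A1 B1 B0
      else cover f A0 A1 B1 ((B1 + B0) / 2) && cover f A0 A1 ((B1 + B0) / 2) B0)

theorem cover_true : cover 26 0 4096 0 4096 = true := by decide +kernel

lemma w_mono : ∀ i < 16, i * i * (48 - 2 * i) ≤ (i+1) * (i+1) * (48 - 2 * (i+1)) := by decide
lemma w_le : ∀ i ≤ 16, i * i * (48 - 2 * i) ≤ 4096 := by decide

lemma rho_chord_le {A₀ B₀ s : ℝ} (hA : 0 ≤ A₀) (hB : B₀ ≤ 1) (h1 : A₀ ≤ s) (h2 : s ≤ B₀) :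
    rho (A₀ * B₀) ((1 - A₀) * (1 - B₀)) s ≤ 1 := by
  unfold rho
  by_cases h0 : s = 0
  · have : A₀ = 0 := le_antisymm (h0 ▸ h1) hA
    rw [h0, this]; simp; linarith
  by_cases h3 : 1 - s = 0
  · have : B₀ = 1 := by linarith
    rw [h3, this, show s = 1 by linarith]; simp; linarith
  have hs0 : 0 < s := lt_of_le_of_ne (hA.trans h1) (Ne.symm h0)
  have hs1 : 0 < 1 - s := lt_of_le_of_ne (by linarith) (Ne.symm h3)
  rw [div_add_div _ _ h0 h3, div_le_one (mul_pos hs0 hs1)]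
  nlinarith [mul_nonneg (sub_nonneg.mpr h1) (sub_nonneg.mpr h2)]

lemma bnode_sound {P Q k : ℕ} (hk0 : 0 < k) (hk1 : k < 16777216)
    (hρ : rho ((P:ℝ) / 16777216) ((Q:ℝ) / 16777216) ((k:ℝ) / 16777216) ≤ 1) :
    ((bnode P Q k : ℝ) / 65536) ^ 2 +
      rho ((P:ℝ) / 16777216) ((Q:ℝ) / 16777216) ((k:ℝ) / 16777216) ^ 2 ≤ 1 := by
  have hk0' : (0:ℝ) < k := by exact_mod_cast hk0
  have hk1' : (k:ℝ) < 16777216 := by exact_mod_cast hk1
  have r0 : 0 ≤ rho ((P:ℝ) / 16777216) ((Q:ℝ) / 16777216) ((k:ℝ) / 16777216) :=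
    rho_nonneg (by positivity) (by positivity) (by positivity) (by linarith)
  set ρ := rho ((P:ℝ) / 16777216) ((Q:ℝ) / 16777216) ((k:ℝ) / 16777216) with hρd
  set num : ℕ := (P * (16777216 - k) + Q * k) * 65536 with hnum
  set den : ℕ := k * (16777216 - k) with hden
  have hden0 : 0 < den := Nat.mul_pos hk0 (by omega)
  set r : ℕ := num / den + 1 with hr
  have h1 : ρ * 65536 ≤ r := by
    have a1 : num < r * den := by
      rw [hr, mul_comm]; exact Nat.lt_mul_div_succ num hden0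
    have a2 : (num:ℝ) < r * den := by exact_mod_cast a1
    have a3 : ρ * 65536 * den = num := by
      rw [hρd, hnum, hden]
      push_cast [Nat.cast_sub hk1.le]
      unfold rho
      have : (1:ℝ) - k / 16777216 ≠ 0 := by
        intro h; linarith
      have h' : (16777216:ℝ) - k ≠ 0 := by linarith
      field_simp
    have a4 : (0:ℝ) < den := by exact_mod_cast hden0
    rw [← a3] at a2
    exact (lt_of_mul_lt_mul_right a2 a4.le).le
  have hb : bnode P Q k = Nat.sqrt (65536 * 65536 - r ^ 2) := rfl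
  by_cases hR : r ^ 2 ≤ 65536 * 65536
  · have a1 := Nat.sqrt_le' (65536 * 65536 - r ^ 2)
    rw [← hb] at a1
    have a2 : bnode P Q k ^ 2 + r ^ 2 ≤ 65536 * 65536 := by omega
    have a3 : (bnode P Q k : ℝ) ^ 2 + (r:ℝ) ^ 2 ≤ 65536 * 65536 := by exact_mod_cast a2
    have a4 : (ρ * 65536) ^ 2 ≤ (r:ℝ) ^ 2 := pow_le_pow_left₀ (by positivity) h1 2
    rw [div_pow]
    nlinarith
  · have : bnode P Q k = 0 := by
      rw [hb, Nat.sub_eq_zero_of_le (by omega)]; rfl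
    rw [this]; simp
    rw [abs_of_nonneg r0]; exact hρ

lemma node_bounds {A1 B1 : ℕ} (h : A1 < B1) {i : ℕ} (hi : i ≤ 16) :
    A1 * 4096 ≤ node A1 B1 i ∧ node A1 B1 i ≤ B1 * 4096 := by
  unfold node
  refine ⟨Nat.le_add_right _ _, ?_⟩
  have := Nat.mul_le_mul_left (B1 - A1) (w_le i hi)
  have e : B1 * 4096 = A1 * 4096 + (B1 - A1) * 4096 := by
    rw [← Nat.add_mul]; congr 1; omega
  omega

lemma trap_sound {A0 A1 B1 B0 : ℕ} (h01 : A0 < A1) (h11 : A1 < B1) (h10 : B1 < B0)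
    (hB : B0 ≤ 4096) (n : ℕ) (hn : n ≤ 16) :
    (trap (A0 * B0) ((4096 - A0) * (4096 - B0)) A1 B1 n : ℝ) / (2 * 16777216 * 65536) ≤
      ∫ s in ((node A1 B1 0 : ℝ) / 16777216)..((node A1 B1 n : ℝ) / 16777216),
        √(1 - rho (((A0 * B0 : ℕ) : ℝ) / 16777216)
          ((((4096 - A0) * (4096 - B0) : ℕ) : ℝ) / 16777216) s ^ 2) := by
  have hin : ∀ i ≤ 16, 0 < node A1 B1 i ∧ node A1 B1 i < 16777216 ∧
      rho (((A0 * B0 : ℕ) : ℝ) / 16777216) ((((4096 - A0) * (4096 - B0) : ℕ) : ℝ) / 16777216)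
        ((node A1 B1 i : ℝ) / 16777216) ≤ 1 := by
    intro i hi
    obtain ⟨a1, a2⟩ := node_bounds h11 hi
    refine ⟨by omega, by omega, ?_⟩
    have e1 : ((A0 * B0 : ℕ) : ℝ) / 16777216 = ((A0:ℝ) / 4096) * ((B0:ℝ) / 4096) := by
      push_cast; ring
    have e2 : (((4096 - A0) * (4096 - B0) : ℕ) : ℝ) / 16777216 =
        (1 - (A0:ℝ) / 4096) * (1 - (B0:ℝ) / 4096) := by
      push_cast [Nat.cast_sub hB, Nat.cast_sub (show A0 ≤ 4096 by omega)]; ring
    rw [e1, e2]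
    have c1 : A0 * 4096 ≤ node A1 B1 i := (Nat.mul_le_mul_right _ h01.le).trans a1
    have c2 : node A1 B1 i ≤ B0 * 4096 := a2.trans (Nat.mul_le_mul_right _ h10.le)
    have b1 : ((A0 * 4096 : ℕ) : ℝ) ≤ node A1 B1 i := Nat.cast_le.mpr c1
    have b2 : (node A1 B1 i : ℝ) ≤ ((B0 * 4096 : ℕ) : ℝ) := Nat.cast_le.mpr c2
    have b3 : (B0:ℝ) ≤ 4096 := by exact_mod_cast hB
    push_cast at b1 b2
    exact rho_chord_le (by positivity) (by linarith) (by linarith) (by linarith)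
  have hpos : ∀ i ≤ 16, (0:ℝ) < (node A1 B1 i : ℝ) / 16777216 ∧
      (node A1 B1 i : ℝ) / 16777216 < 1 := by
    intro i hi
    obtain ⟨a1, a2, -⟩ := hin i hi
    have b1 : (0:ℝ) < node A1 B1 i := by exact_mod_cast a1
    have b2 : (node A1 B1 i : ℝ) < 16777216 := by exact_mod_cast a2
    constructor <;> linarith
  induction n with
  | zero => simp [trap]
  | succ n ih =>
    have hle : node A1 B1 n ≤ node A1 B1 (n+1) := by
      unfold node
      exact Nat.add_le_add_left (Nat.mul_le_mul_left _ (w_mono n (by omega))) _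
    have hle' : (node A1 B1 n : ℝ) / 16777216 ≤ (node A1 B1 (n+1) : ℝ) / 16777216 := by
      have : (node A1 B1 n : ℝ) ≤ node A1 B1 (n+1) := by exact_mod_cast hle
      linarith
    have hle0 : (node A1 B1 0 : ℝ) / 16777216 ≤ (node A1 B1 n : ℝ) / 16777216 := by
      have : node A1 B1 0 ≤ node A1 B1 n := by unfold node; simp
      have : (node A1 B1 0 : ℝ) ≤ node A1 B1 n := by exact_mod_cast this
      linarith
    rw [← intervalIntegral.integral_add_adjacent_intervals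
      (b := (node A1 B1 n : ℝ) / 16777216)
      (ii_b (hpos 0 (by omega)).1 hle0 (hpos n (by omega)).2)
      (ii_b (hpos n (by omega)).1 hle' (hpos (n+1) hn).2)]
    have t := trap_one (by positivity) (by positivity) (hpos n (by omega)).1 hle' (hpos (n+1) hn).2
      (by positivity) (by positivity)
      (bnode_sound (hin n (by omega)).1 (hin n (by omega)).2.1 (hin n (by omega)).2.2)
      (bnode_sound (hin (n+1) hn).1 (hin (n+1) hn).2.1 (hin (n+1) hn).2.2)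
    have ih' := ih (by omega)
    rw [trap]
    push_cast [Nat.cast_sub hle] at t ih' ⊢
    linarith

lemma leaf_sound {A0 A1 B1 B0 : ℕ} (h : leaf A0 A1 B1 B0 = true) {A B l : ℝ}
    (a0 : (A0:ℝ) / 4096 ≤ A) (a1 : A ≤ (A1:ℝ) / 4096) (b1 : (B1:ℝ) / 4096 ≤ B)
    (b0 : B ≤ (B0:ℝ) / 4096) (hAl : A ≤ l) (hlB : l ≤ B) : Good A B l := by
  simp only [leaf, Bool.and_eq_true, decide_eq_true_eq] at h
  obtain ⟨⟨⟨⟨h01, h11⟩, h10⟩, hB⟩, hT⟩ := h
  have hB' : (B0:ℝ) ≤ 4096 := by exact_mod_cast hB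
  have h01' : (A0:ℝ) < A1 := by exact_mod_cast h01
  have h11' : (A1:ℝ) < B1 := by exact_mod_cast h11
  have h10' : (B1:ℝ) < B0 := by exact_mod_cast h10
  have hA0 : (0:ℝ) ≤ A0 := Nat.cast_nonneg _
  have ts := trap_sound h01 h11 h10 hB 16 le_rfl
  have e1 : ((A0 * B0 : ℕ) : ℝ) / 16777216 = ((A0:ℝ) / 4096) * ((B0:ℝ) / 4096) := by
    push_cast; ring
  have e2 : (((4096 - A0) * (4096 - B0) : ℕ) : ℝ) / 16777216 =
      (1 - (A0:ℝ) / 4096) * (1 - (B0:ℝ) / 4096) := by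
    push_cast [Nat.cast_sub hB, Nat.cast_sub (show A0 ≤ 4096 by omega)]; ring
  have n0 : (node A1 B1 0 : ℝ) / 16777216 = (A1:ℝ) / 4096 := by
    unfold node; push_cast; ring
  have n16 : (node A1 B1 16 : ℝ) / 16777216 = (B1:ℝ) / 4096 := by
    unfold node; push_cast [Nat.cast_sub h11.le]; ring
  rw [e1, e2, n0, n16] at ts
  set A₀ : ℝ := (A0:ℝ) / 4096 with hA₀
  set B₀ : ℝ := (B0:ℝ) / 4096 with hB₀
  have p0 : 0 ≤ A₀ := by positivity
  have p1 : B₀ ≤ 1 := by rw [hB₀]; linarith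
  have hT' : (B₀ - A₀) ^ 2 + 1 / 1000 ≤
      (trap (A0 * B0) ((4096 - A0) * (4096 - B0)) A1 B1 16 : ℝ) / (2 * 16777216 * 65536) := by
    have : ((2 * 65536 * ((B0 - A0) ^ 2 * 1000 + 4096 * 4096) : ℕ) : ℝ) ≤
        ((trap (A0 * B0) ((4096 - A0) * (4096 - B0)) A1 B1 16 * 1000 : ℕ) : ℝ) := by
      exact_mod_cast hT
    push_cast [Nat.cast_sub (show A0 ≤ B0 by omega)] at this
    rw [hA₀, hB₀, le_div_iff₀ (by norm_num)]
    nlinarith
  have hP : A = 0 → A₀ * B₀ = 0 := fun h => by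
    have : A₀ = 0 := by linarith
    rw [this, zero_mul]
  have hQ : B = 1 → (1 - A₀) * (1 - B₀) = 0 := fun h => by
    have : B₀ = 1 := by linarith
    rw [this]; simp
  have q0 : 0 ≤ A := by linarith
  have q1 : B ≤ 1 := by linarith
  refine good_PQ (P := A₀ * B₀) (Q := (1 - A₀) * (1 - B₀)) q0 q1
    (mul_nonneg p0 (by linarith)) (mul_nonneg (by linarith) (by linarith)) hP hQ
    (fun s hs => rho_chord_le p0 p1 (by linarith [hs.1]) (by linarith [hs.2])) ?_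
  have hmono : ∫ s in ((A1:ℝ) / 4096)..((B1:ℝ) / 4096),
      √(1 - rho (A₀ * B₀) ((1 - A₀) * (1 - B₀)) s ^ 2) ≤
      ∫ s in A..B, √(1 - rho (A₀ * B₀) ((1 - A₀) * (1 - B₀)) s ^ 2) := by
    refine intervalIntegral.integral_mono_interval a1 (by linarith) b1
      (Filter.Eventually.of_forall fun s => Real.sqrt_nonneg _) ?_
    refine ContinuousOn.intervalIntegrable ?_
    rw [uIcc_of_le (by linarith)]
    exact (continuousOn_const.sub ((contOn_rho q0 q1 hP hQ).pow 2)).sqrt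
  have hJ := J_le (s := l) (by linarith) (by linarith)
  nlinarith [sq_nonneg (2 * l - A₀ - B₀)]

lemma cover_sound (f : ℕ) : ∀ A0 A1 B1 B0 : ℕ, cover f A0 A1 B1 B0 = true → ∀ A B l : ℝ,
    (A0:ℝ) / 4096 ≤ A → A ≤ (A1:ℝ) / 4096 → (B1:ℝ) / 4096 ≤ B → B ≤ (B0:ℝ) / 4096 →
    0 ≤ A → A ≤ l → l ≤ B → B ≤ 1 → Good A B l := by
  induction f with
  | zero => intro _ _ _ _ h; simp [cover] at h
  | succ f ih =>
    intro A0 A1 B1 B0 h A B l a0 a1 b1 b0 hA hAl hlB hB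
    simp only [cover, Bool.or_eq_true, decide_eq_true_eq] at h
    rcases h with ((h | h) | h) | h
    · refine good_small hA hAl hlB hB ?_
      have h1 : B0 * 5 ≤ 3 * 4096 + A0 * 5 := by omega
      have h2 : (B0:ℝ) * 5 ≤ 3 * 4096 + A0 * 5 := by exact_mod_cast h1
      linarith
    · refine good_corner hA hAl hlB hB ?_
      have h1 : (A1 + 4096) * 50 ≤ 4096 + B1 * 50 := by omega
      have h2 : ((A1:ℝ) + 4096) * 50 ≤ 4096 + B1 * 50 := by exact_mod_cast h1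
      linarith
    · exact leaf_sound h a0 a1 b1 b0 hAl hlB
    · split_ifs at h with hc
      · rw [Bool.and_eq_true] at h
        rcases le_total A ((((A0 + A1) / 2 : ℕ) : ℝ) / 4096) with h' | h'
        · exact ih _ _ _ _ h.1 A B l a0 h' b1 b0 hA hAl hlB hB
        · exact ih _ _ _ _ h.2 A B l h' a1 b1 b0 hA hAl hlB hB
      · rw [Bool.and_eq_true] at h
        rcases le_total B ((((B1 + B0) / 2 : ℕ) : ℝ) / 4096) with h' | h'
        · exact ih _ _ _ _ h.1 A B l a0 a1 b1 h' hA hAl hlB hB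
        · exact ih _ _ _ _ h.2 A B l a0 a1 h' b0 hA hAl hlB hB

theorem good_all {A B l : ℝ} (hA : 0 ≤ A) (hAl : A ≤ l) (hlB : l ≤ B) (hB : B ≤ 1) :
    Good A B l :=
  cover_sound 26 0 4096 0 4096 cover_true A B l (by simpa using hA) (by norm_num; linarith)
    (by simp; linarith) (by norm_num; linarith) hA hAl hlB hB

end Pool.Agent.H522Z.Cube
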