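import Pool.Agent.H522Z.Cube.Moll

set_option autoImplicit false

open MeasureTheory Set Filter Topology
open scoped Convolution

namespace Pool.Agent.H522Z.Cube

variable {d : ℕ}

lemma moll_bump (φ : ContDiffBump (0 : Fin d → ℝ)) : Moll (φ.normed volume) φ.rOut where
  smooth := φ.contDiff_normed
  cpt := φ.hasCompactSupport_normed
  nonneg := fun x => φ.nonneg_normed x
  one := φ.integral_normed
  even := fun x => φ.normed_neg x
  supp := fun x hx => by
    have : x ∉ Function.support (φ.normed volume) := by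
      rw [φ.support_normed_eq]; simpa using hx
    simpa using this

theorem limit_ineq {a L r : ℝ} (ha : 0 < a) (hL : a + L = 1 - a) (hL0 : 0 < L)
    (hL1 : L ≤ 1) {E : Set (Fin d → ℝ)} (hE : MeasurableSet E)
    (hEi : Integrable (E.indicator fun _ => (1:ℝ))) (H : PerLe E r) :
    L ^ d * J ((box a L d).real E / L ^ d) ≤ r := by
  let φ : ℕ → ContDiffBump (0 : Fin d → ℝ) := fun n =>
    ⟨a / (2 * ((n:ℝ) + 2)), a / ((n:ℝ) + 2), by positivity, by
      refine div_lt_div_of_pos_left ha (by positivity) ?_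
      have : (0:ℝ) ≤ n := Nat.cast_nonneg n
      linarith⟩
  have hout : ∀ n, (φ n).rOut = a / ((n:ℝ) + 2) := fun n => rfl
  have hin : ∀ n, (φ n).rIn = a / (2 * ((n:ℝ) + 2)) := fun n => rfl
  have h1 : Tendsto (fun n => (φ n).rOut) atTop (𝓝 0) := by
    simp only [hout]
    exact tendsto_const_nhds.div_atTop
      (tendsto_atTop_add_const_right _ _ tendsto_natCast_atTop_atTop)
  have h2 : ∀ᶠ n in atTop, (φ n).rOut ≤ 2 * (φ n).rIn := Eventually.of_forall fun n => by
    rw [hout, hin]; apply le_of_eq; field_simp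
  have hae := ContDiffBump.ae_convolution_tendsto_right_of_locallyIntegrable (μ := volume) h1 h2
    hEi.locallyIntegrable
  set u : (Fin d → ℝ) → ℝ := E.indicator fun _ => 1 with hu
  have e : ∀ n x, ((φ n).normed volume ⋆[ContinuousLinearMap.lsmul ℝ ℝ, volume] u) x =
      cv ((φ n).normed volume) u x := by
    intro n x
    rw [convolution_eq_swap]; unfold cv
    congr 1; funext t; simp [mul_comm]
  simp only [e] at hae
  have hae' : ∀ᵐ x ∂(box a L d), Tendsto (fun n => cv ((φ n).normed volume) u x) atTop (𝓝 (u x)) := by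
    rw [box_eq]; exact ae_restrict_of_ae hae
  have hum : Measurable u := measurable_const.indicator hE
  have hu0 : ∀ t, 0 ≤ u t := fun t => indicator_nonneg (fun _ _ => zero_le_one) t
  have hu1 : ∀ t, u t ≤ 1 := fun t => indicator_le_self' (fun _ _ => zero_le_one) t
  have hua : ∀ t, |u t| ≤ 1 := fun t => by rw [abs_of_nonneg (hu0 t)]; exact hu1 t
  have c0 : ∀ n x, 0 ≤ cv ((φ n).normed volume) u x := fun n x =>
    integral_nonneg fun t => mul_nonneg (hu0 t) ((moll_bump (φ n)).nonneg _)
  have c1 : ∀ n x, cv ((φ n).normed volume) u x ≤ 1 := fun n =>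
    (moll_bump (φ n)).cv_le hum hua hu1
  have cc : ∀ n, Continuous (cv ((φ n).normed volume) u) := fun n =>
    ((moll_bump (φ n)).cv_smooth hEi).continuous
  have t1 : Tendsto (fun n => ∫ x, cv ((φ n).normed volume) u x ∂(box a L d)) atTop
      (𝓝 (∫ x, u x ∂(box a L d))) :=
    tendsto_integral_of_dominated_convergence (fun _ => (1:ℝ))
      (fun n => (cc n).aestronglyMeasurable) (integrable_const _)
      (fun n => Eventually.of_forall fun x => by
        rw [Real.norm_eq_abs, abs_of_nonneg (c0 n x)]; exact c1 n x) hae'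
  have t2 : Tendsto (fun n => ∫ x, J (cv ((φ n).normed volume) u x) ∂(box a L d)) atTop
      (𝓝 (∫ x, J (u x) ∂(box a L d))) :=
    tendsto_integral_of_dominated_convergence (fun _ => (1:ℝ))
      (fun n => (continuous_J.comp (cc n)).aestronglyMeasurable) (integrable_const _)
      (fun n => Eventually.of_forall fun x => abs_J_le (c0 n x) (c1 n x))
      (hae'.mono fun x hx => (continuous_J.tendsto _).comp hx)
  have e1 : ∫ x, u x ∂(box a L d) = (box a L d).real E := integral_indicator_one hE
  have e2 : ∫ x, J (u x) ∂(box a L d) = 0 := by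
    refine integral_eq_zero_of_ae (Eventually.of_forall fun x => ?_)
    by_cases hx : x ∈ E
    · simp [hu, indicator_of_mem hx, J_one]
    · simp [hu, indicator_of_notMem hx, J_zero]
  rw [e1] at t1
  rw [e2] at t2
  have t3 := ((continuous_J.tendsto _).comp (t1.div_const (L ^ d))).const_mul (L ^ d)
  have t4 := t2.add_const r
  rw [zero_add] at t4
  refine le_of_tendsto_of_tendsto' t3 t4 fun n => ?_
  refine moll_ineq (moll_bump (φ n)) ?_ hL hL0 hL1 hE hEi H
  rw [hout]
  refine div_lt_self ha ?_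
  have : (0:ℝ) ≤ n := Nat.cast_nonneg n
  linarith

theorem lower {t : ℝ} (ht1 : 1 / 2 - 1 / 8000 ≤ t) (ht2 : t ≤ 1 / 2 + 1 / 8000)
    {E : Set (Fin d → ℝ)} (hE : MeasurableSet E)
    (hsub : E ⊆ {x : Fin d → ℝ | ∀ i, 0 < x i ∧ x i < 1}) (hvol : volume E = ENNReal.ofReal t)
    {r : ℝ} (H : PerLe E r) : 1 ≤ r := by
  by_contra hr
  push Not at hr
  have hEi : Integrable (E.indicator fun _ => (1:ℝ)) := by
    rw [integrable_indicator_iff hE]
    exact integrableOn_const (by rw [hvol]; exact ENNReal.ofReal_ne_top)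
  set θ : ℝ := min (1 - r) (1 / 8000) / 2 with hθ
  have hθ0 : 0 < θ := by
    have : 0 < min (1 - r) (1 / 8000) := lt_min (by linarith) (by norm_num)
    positivity
  have hθ1 : θ < 1 - r := by
    have := min_le_left (1 - r) (1 / 8000 : ℝ)
    linarith
  have hθ2 : θ ≤ 1 / 16000 := by
    have := min_le_right (1 - r) (1 / 8000 : ℝ)
    linarith
  have hd0 : (0:ℝ) ≤ d := Nat.cast_nonneg d
  set x : ℝ := θ / (d + 1) with hx
  have hx0 : 0 < x := by positivity
  have hx1 : x ≤ θ := div_le_self hθ0.le (by linarith)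
  have hxd : d * x ≤ θ := by
    rw [hx, ← mul_div_assoc, div_le_iff₀ (by positivity)]; nlinarith
  set L : ℝ := 1 - x with hL
  have hL0 : 0 < L := by linarith
  have hL1 : L ≤ 1 := by linarith
  have hLd : 1 - θ ≤ L ^ d := by
    have := one_add_mul_le_pow (a := -x) (by linarith) d
    rw [show 1 + -x = L by rw [hL]; ring] at this
    linarith
  have hLd1 : L ^ d ≤ 1 := pow_le_one₀ hL0.le hL1
  have hlim := limit_ineq (a := x / 2) (L := L) (by positivity) (by rw [hL]; ring) hL0 hL1 hE hEi H
  set K : Set (Fin d → ℝ) := Icc (fun _ => x / 2) (fun _ => x / 2 + L) with hK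
  have hKm : MeasurableSet K := measurableSet_Icc
  have hEr : volume.real E = t := by
    rw [Measure.real, hvol, ENNReal.toReal_ofReal (by linarith)]
  have hEf : volume E ≠ ⊤ := by rw [hvol]; exact ENNReal.ofReal_ne_top
  have e1 : (box (x / 2) L d).real E = volume.real (E ∩ K) := by
    rw [box_eq, Measure.real, Measure.restrict_apply hE]; rfl
  have hKr : volume.real K = L ^ d := by
    have := box_univ (x / 2) hL0.le d
    rwa [box_eq, Measure.real, Measure.restrict_apply MeasurableSet.univ, univ_inter] at this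
  set C : Set (Fin d → ℝ) := Icc (fun _ => 0) (fun _ => 0 + 1) with hC
  have hCr : volume.real C = 1 := by
    have := box_univ 0 zero_le_one d
    rwa [box_eq, Measure.real, Measure.restrict_apply MeasurableSet.univ, univ_inter,
      one_pow] at this
  have hCf : volume C ≠ ⊤ := isCompact_Icc.measure_lt_top.ne
  have hKC : K ⊆ C := Icc_subset_Icc (fun i => by simp only; linarith)
    (fun i => by simp only; linarith)
  have s1 := measureReal_inter_add_sdiff (μ := volume) (s := E) hKm hEf
  have s2 := measureReal_inter_add_sdiff (μ := volume) (s := C) hKm hCf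
  rw [inter_eq_right.mpr hKC, hKr, hCr] at s2
  have s3 : volume.real (E \ K) ≤ volume.real (C \ K) := by
    refine measureReal_mono (sdiff_subset_sdiff_left fun z hz => ?_)
      (measure_ne_top_of_subset sdiff_subset hCf)
    exact ⟨fun i => (hsub hz i).1.le, fun i => by simpa using (hsub hz i).2.le⟩
  have s4 : 0 ≤ volume.real (E \ K) := measureReal_nonneg
  rw [hEr] at s1
  have hLp : 0 < L ^ d := by positivity
  rw [e1, J_plateau] at hlim
  · linarith
  · rw [le_div_iff₀ hLp]; nlinarith
  · rw [div_le_iff₀ hLp]; nlinarith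

theorem upper {n : ℕ} {t : ℝ} (ht0 : 0 < t) (ht1 : t < 1) :
    ∃ E : Set (Fin (n+1) → ℝ), MeasurableSet E ∧
      E ⊆ {x : Fin (n+1) → ℝ | ∀ i, 0 < x i ∧ x i < 1} ∧ volume E = ENNReal.ofReal t ∧
      PerLe E 1 := by
  set b : Fin (n+1) → ℝ := Fin.cons t fun _ => 1 with hb
  have hb0 : b 0 = t := rfl
  have hbs : ∀ j : Fin n, b j.succ = 1 := fun j => rfl
  have hble : ∀ i, 0 < b i ∧ b i ≤ 1 := fun i => by
    refine Fin.cases ?_ (fun j => ?_) i
    · rw [hb0]; exact ⟨ht0, ht1.le⟩
    · rw [hbs]; exact ⟨one_pos, le_rfl⟩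
  refine ⟨univ.pi fun i => Ioo 0 (b i), MeasurableSet.univ_pi fun i => measurableSet_Ioo,
    fun x hx i => ⟨(hx i trivial).1, (hx i trivial).2.trans_le (hble i).2⟩, ?_, ?_⟩
  · rw [Real.volume_pi_Ioo, Fin.prod_univ_succ]
    simp [hb0, hbs]
  intro φ h1 h2 h3 h4
  have hae : (univ.pi fun i => Ioo 0 (b i) : Set (Fin (n+1) → ℝ)) =ᵐ[volume] Icc 0 b :=
    Measure.univ_pi_Ioo_ae_eq_Icc (f := 0) (g := b)
  rw [setIntegral_congr_set hae]
  have hci : ∀ i, ContDiff ℝ 1 fun y => φ y i := fun i => contDiff_pi.mp h1 i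
  have hdiv := integral_divergence_of_hasFDerivAt_off_countable' (0 : Fin (n+1) → ℝ) b
    (fun i => (hble i).1.le) (fun i y => φ y i) (fun i x => fderiv ℝ (fun y => φ y i) x) ∅
    countable_empty (fun i => (hci i).continuous.continuousOn)
    (fun x _ i => ((hci i).differentiable one_ne_zero x).hasFDerivAt)
    (ContinuousOn.integrableOn_compact isCompact_Icc (Continuous.continuousOn
      (continuous_finsetSum _ fun i _ =>
        ((hci i).continuous_fderiv one_ne_zero).clm_apply continuous_const)))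
  rw [hdiv]
  have hz : ∀ (x : Fin (n+1) → ℝ) (i : Fin (n+1)), (x i = 0 ∨ x i = 1) → φ x = 0 := by
    intro x i hi
    by_contra hc
    have := h3 (subset_tsupport _ hc) i
    rcases hi with h | h <;> rw [h] at this <;> linarith [this.1, this.2]
  have z0 : ∀ (i : Fin (n+1)) (y : Fin n → ℝ),
      φ (i.insertNth ((0 : Fin (n+1) → ℝ) i) y) i = 0 := by
    intro i y
    rw [hz _ i (Or.inl (by simp))]; rfl
  have z1 : ∀ (j : Fin n) (y : Fin n → ℝ), φ (j.succ.insertNth (b j.succ) y) j.succ = 0 := by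
    intro j y
    rw [hz _ j.succ (Or.inr (by simp [hbs]))]; rfl
  rw [Fin.sum_univ_succ]
  simp only [z0, z1, integral_zero, sub_zero, Finset.sum_const_zero, add_zero]
  have hv : volume.real (Icc ((0 : Fin (n+1) → ℝ) ∘ (0 : Fin (n+1)).succAbove)
      (b ∘ (0 : Fin (n+1)).succAbove)) = 1 := by
    rw [Measure.real, Real.volume_Icc_pi]
    simp [hbs]
  have hn := norm_setIntegral_le_of_norm_le_const (μ := volume)
    (s := Icc ((0 : Fin (n+1) → ℝ) ∘ (0 : Fin (n+1)).succAbove) (b ∘ (0 : Fin (n+1)).succAbove))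
    (f := fun y => φ ((0 : Fin (n+1)).insertNth (b 0) y) 0) (C := 1)
    isCompact_Icc.measure_lt_top (fun y _ => by
      set x : Fin (n+1) → ℝ := (0 : Fin (n+1)).insertNth (b 0) y
      have h5 : φ x 0 ^ 2 ≤ ∑ i, φ x i ^ 2 :=
        Finset.single_le_sum (f := fun i => φ x i ^ 2) (fun _ _ => sq_nonneg _) (Finset.mem_univ 0)
      rw [Real.norm_eq_abs]
      exact abs_le_one_iff_mul_self_le_one.mpr (by nlinarith [h4 x]))
  rw [hv, mul_one] at hn
  exact (le_abs_self _).trans hn

end Pool.Agent.H522Z.Cube
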