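import Pool.Agent.H522Z.Cube.Tensor

set_option autoImplicit false

open MeasureTheory Set
open scoped Convolution

namespace Pool.Agent.H522Z.Cube

variable {d : ℕ}

/-- convolution with a kernel -/
noncomputable def cv (k h : (Fin d → ℝ) → ℝ) (x : Fin d → ℝ) : ℝ := ∫ t, h t * k (x - t)

lemma cv_eq (k h : (Fin d → ℝ) → ℝ) :
    cv k h = h ⋆[ContinuousLinearMap.lsmul ℝ ℝ, volume] k := by
  funext x; rw [convolution_lsmul]; rfl

/-- properties of a mollifier of radius `δ` -/
structure Moll (ρ : (Fin d → ℝ) → ℝ) (δ : ℝ) : Prop where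
  smooth : ContDiff ℝ 1 ρ
  cpt : HasCompactSupport ρ
  nonneg : ∀ x, 0 ≤ ρ x
  one : ∫ x, ρ x = 1
  even : ∀ x, ρ (-x) = ρ x
  supp : ∀ x, δ ≤ ‖x‖ → ρ x = 0

/-- partial derivative of the kernel -/
noncomputable def pd (ρ : (Fin d → ℝ) → ℝ) (i : Fin d) (x : Fin d → ℝ) : ℝ :=
  fderiv ℝ ρ x (Pi.single i 1)

variable {ρ : (Fin d → ℝ) → ℝ} {δ : ℝ}

lemma Moll.cv_smooth (m : Moll ρ δ) {h : (Fin d → ℝ) → ℝ} (hh : Integrable h) :
    ContDiff ℝ 1 (cv ρ h) := by
  rw [cv_eq]
  exact m.cpt.contDiff_convolution_right (n := 1) _ hh.locallyIntegrable m.smooth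

lemma Moll.cv_pd (m : Moll ρ δ) {h : (Fin d → ℝ) → ℝ} (hh : Integrable h) (i : Fin d)
    (x : Fin d → ℝ) : fderiv ℝ (cv ρ h) x (Pi.single i 1) = cv (pd ρ i) h x := by
  rw [cv_eq, (m.cpt.hasFDerivAt_convolution_right _ hh.locallyIntegrable m.smooth x).fderiv,
    convolution_precompR_apply _ hh.locallyIntegrable (m.cpt.fderiv ℝ)
      (m.smooth.continuous_fderiv one_ne_zero), cv_eq]
  rfl

lemma Moll.cont_pd (m : Moll ρ δ) (i : Fin d) : Continuous (pd ρ i) :=
  (m.smooth.continuous_fderiv one_ne_zero).clm_apply continuous_const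

lemma Moll.bdd_pd (m : Moll ρ δ) : ∃ M, ∀ i x, |pd ρ i x| ≤ M := by
  obtain ⟨M, hM⟩ := (m.smooth.continuous_fderiv one_ne_zero).bounded_above_of_compact_support
    (m.cpt.fderiv ℝ)
  refine ⟨M, fun i x => ?_⟩
  have h1 := (fderiv ℝ ρ x).le_opNorm (Pi.single i 1)
  rw [Pi.norm_single, norm_one, mul_one] at h1
  exact h1.trans (hM x)

lemma Moll.odd_pd (m : Moll ρ δ) (i : Fin d) (x : Fin d → ℝ) : pd ρ i (-x) = - pd ρ i x := by
  have hd : Differentiable ℝ ρ := m.smooth.differentiable one_ne_zero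
  have h1 : HasFDerivAt (fun y => ρ (-y)) ((fderiv ℝ ρ (-x)).comp (-ContinuousLinearMap.id ℝ _)) x :=
    (hd (-x)).hasFDerivAt.comp x (hasFDerivAt_id x).neg
  have h2 : (fun y => ρ (-y)) = ρ := funext m.even
  rw [h2] at h1
  unfold pd
  rw [h1.fderiv]; simp

lemma Moll.int_shift (m : Moll ρ δ) (x : Fin d → ℝ) : Integrable fun t => ρ (x - t) :=
  (m.smooth.continuous.integrable_of_hasCompactSupport m.cpt).comp_sub_left x

lemma Moll.one_shift (m : Moll ρ δ) (x : Fin d → ℝ) : ∫ t, ρ (x - t) = 1 := by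
  rw [integral_sub_left_eq_self]; exact m.one

lemma Moll.int_mul (m : Moll ρ δ) {h : (Fin d → ℝ) → ℝ} (hm : Measurable h) {C : ℝ}
    (hC : ∀ t, |h t| ≤ C) (x : Fin d → ℝ) : Integrable fun t => h t * ρ (x - t) :=
  (m.int_shift x).bdd_mul hm.aestronglyMeasurable (Filter.Eventually.of_forall hC)

lemma Moll.cv_le (m : Moll ρ δ) {h : (Fin d → ℝ) → ℝ} (hm : Measurable h) {C c : ℝ}
    (hC : ∀ t, |h t| ≤ C) (hc : ∀ t, h t ≤ c) (x : Fin d → ℝ) : cv ρ h x ≤ c := by
  have := integral_mono (m.int_mul hm hC x) ((m.int_shift x).const_mul c)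
    fun t => mul_le_mul_of_nonneg_right (hc t) (m.nonneg _)
  rwa [integral_const_mul, m.one_shift, mul_one] at this

lemma swap_lemma {u w k : (Fin d → ℝ) → ℝ} (hu : Integrable u) (hw : Integrable w)
    (hk : Continuous k) {M : ℝ} (hM : ∀ x, |k x| ≤ M) :
    ∫ z, u z * ∫ t, w t * k (z - t) = ∫ t, w t * ∫ z, u z * k (z - t) := by
  have hi : Integrable (Function.uncurry fun z t => u z * (w t * k (z - t)))
      ((volume : Measure (Fin d → ℝ)).prod volume) := by
    have h1 := (hu.mul_prod hw).mul_bdd (c := M)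
      (g := fun p : (Fin d → ℝ) × (Fin d → ℝ) => k (p.1 - p.2))
      (hk.comp (continuous_fst.sub continuous_snd)).aestronglyMeasurable
      (Filter.Eventually.of_forall fun p => hM _)
    refine h1.congr (Filter.Eventually.of_forall fun p => ?_)
    simp only [Function.uncurry]; ring
  have := integral_integral_swap hi
  simp_rw [← integral_const_mul]
  rw [this]
  congr 1; funext t; congr 1; funext z; ring

lemma box_eq (a L : ℝ) (d : ℕ) :
    box a L d = volume.restrict (Icc (fun _ => a) (fun _ => a + L) : Set (Fin d → ℝ)) := by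
  unfold box mu1
  rw [← Measure.restrict_pi_pi, ← volume_pi, pi_univ_Icc]

/-- the admissible test fields and the bound on the perimeter -/
def PerLe (E : Set (Fin d → ℝ)) (r : ℝ) : Prop :=
  ∀ φ : (Fin d → ℝ) → (Fin d → ℝ), ContDiff ℝ 1 φ → HasCompactSupport φ →
    tsupport φ ⊆ {x : Fin d → ℝ | ∀ i, 0 < x i ∧ x i < 1} → (∀ x, ∑ i, (φ x i) ^ 2 ≤ 1) →
    ∫ x in E, (∑ i, fderiv ℝ (fun y => φ y i) x (Pi.single i (1 : ℝ) : Fin d → ℝ)) ≤ r

theorem dual_bound (m : Moll ρ δ) {a L r : ℝ} (hδ : δ < a) (hL : a + L = 1 - a)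
    {E : Set (Fin d → ℝ)} (hE : MeasurableSet E) (hEi : Integrable (E.indicator fun _ => (1:ℝ)))
    (H : PerLe E r) :
    ∫ x, √(∑ i, cv (pd ρ i) (E.indicator fun _ => 1) x ^ 2) ∂(box a L d) ≤ r := by
  set u : (Fin d → ℝ) → ℝ := E.indicator fun _ => 1 with hu
  set g : Fin d → (Fin d → ℝ) → ℝ := fun i => cv (pd ρ i) u with hg
  have hgc : ∀ i, Continuous (g i) := by
    intro i
    have : g i = fun x => fderiv ℝ (cv ρ u) x (Pi.single i 1) :=
      funext fun x => (m.cv_pd hEi i x).symm
    rw [this]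
    exact ((m.cv_smooth hEi).continuous_fderiv one_ne_zero).clm_apply continuous_const
  set K : Set (Fin d → ℝ) := Icc (fun _ => a) (fun _ => a + L) with hK
  have hKm : MeasurableSet K := measurableSet_Icc
  set N : (Fin d → ℝ) → ℝ := fun x => √(∑ i, g i x ^ 2) with hN
  have hNc : Continuous N := (continuous_finsetSum _ fun i _ => (hgc i).pow 2).sqrt
  have hN2 : ∀ x, N x ^ 2 = ∑ i, g i x ^ 2 := fun x => Real.sq_sqrt (by positivity)
  set ψ : Fin d → (Fin d → ℝ) → ℝ := fun i => K.indicator fun x => g i x / N x with hψ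
  have hψm : ∀ i, Measurable (ψ i) := fun i =>
    ((hgc i).measurable.div hNc.measurable).indicator hKm
  have hψ2 : ∀ x, ∑ i, ψ i x ^ 2 ≤ 1 := by
    intro x
    by_cases hx : x ∈ K
    · simp only [hψ, indicator_of_mem hx, div_pow]
      rw [← Finset.sum_div, ← hN2]
      exact div_self_le_one _
    · simp [hψ, indicator_of_notMem hx]
  have hψ1 : ∀ i x, |ψ i x| ≤ 1 := by
    intro i x
    have h1 : ψ i x ^ 2 ≤ ∑ i, ψ i x ^ 2 :=
      Finset.single_le_sum (f := fun i => ψ i x ^ 2) (fun _ _ => sq_nonneg _) (Finset.mem_univ i)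
    exact abs_le_one_iff_mul_self_le_one.mpr (by nlinarith [hψ2 x])
  have hψi : ∀ i, Integrable (ψ i) := by
    intro i
    have h1 : IntegrableOn (ψ i) K volume :=
      Measure.integrableOn_of_bounded (M := 1) isCompact_Icc.measure_lt_top.ne
        (hψm i).aestronglyMeasurable (Filter.Eventually.of_forall fun x => hψ1 i x)
    have h2 := (integrable_indicator_iff hKm).mpr h1
    rwa [hψ, indicator_indicator, inter_self] at h2
  obtain ⟨M, hM⟩ := m.bdd_pd
  set φ : (Fin d → ℝ) → (Fin d → ℝ) := fun z i => - cv ρ (ψ i) z with hφ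
  have hz : ∀ z, z ∉ (Icc (fun _ => a - δ) (fun _ => a + L + δ) : Set (Fin d → ℝ)) → φ z = 0 := by
    intro z hz
    funext i
    simp only [hφ, cv, Pi.zero_apply, neg_eq_zero]
    refine integral_eq_zero_of_ae (Filter.Eventually.of_forall fun t => ?_)
    by_cases ht : t ∈ K
    · have : δ ≤ ‖z - t‖ := by
        by_contra hc
        push Not at hc
        apply hz
        constructor <;> intro j
        · have h1 := (norm_le_pi_norm (z - t) j).trans_lt hc
          have h2 := ht.1 j
          rw [Real.norm_eq_abs, Pi.sub_apply, abs_lt] at h1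
          simp only at h2 ⊢; linarith [h1.1]
        · have h1 := (norm_le_pi_norm (z - t) j).trans_lt hc
          have h2 := ht.2 j
          rw [Real.norm_eq_abs, Pi.sub_apply, abs_lt] at h1
          simp only at h2 ⊢; linarith [h1.2]
      simp [m.supp _ this]
    · simp [hψ, indicator_of_notMem ht]
  have hH := H φ (contDiff_pi.mpr fun i => (m.cv_smooth (hψi i)).neg)
    (HasCompactSupport.intro isCompact_Icc hz)
    (by
      refine (closure_minimal (fun z hz' => ?_) isClosed_Icc (t := Icc (fun _ => a - δ)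
        (fun _ => a + L + δ))).trans fun z hz' i => ?_
      · by_contra hc; exact hz' (hz z hc)
      · have h1 := hz'.1 i
        have h2 := hz'.2 i
        simp only at h1 h2
        constructor <;> linarith)
    (by
      intro z
      set S := ∑ i, φ z i ^ 2 with hS
      have hS0 : 0 ≤ S := Finset.sum_nonneg fun _ _ => sq_nonneg _
      have e1 : S = cv ρ (fun t => ∑ i, (-φ z i) * ψ i t) z := by
        unfold cv
        simp_rw [Finset.sum_mul]
        rw [integral_finsetSum]
        · refine Finset.sum_congr rfl fun i _ => ?_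
          simp_rw [mul_assoc]
          rw [integral_const_mul]
          simp only [hφ, cv]; ring
        · intro i _
          simp_rw [mul_assoc]
          exact (m.int_mul (hψm i) (hψ1 i) z).const_mul _
      have hcs : ∀ t, |∑ i, (-φ z i) * ψ i t| ≤ √S := by
        intro t
        refine Real.abs_le_sqrt ?_
        refine (Finset.sum_mul_sq_le_sq_mul_sq _ _ _).trans ?_
        simp only [neg_sq]
        exact mul_le_of_le_one_right hS0 (hψ2 t)
      have e2 : S ≤ √S := by
        conv_lhs => rw [e1]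
        exact m.cv_le (Finset.measurable_sum _ fun i _ => (hψm i).const_mul _) hcs
          (fun t => (le_abs_self _).trans (hcs t)) z
      have e3 := Real.sq_sqrt hS0
      have e4 := Real.sqrt_nonneg S
      nlinarith)
  refine le_trans (le_of_eq ?_) hH
  have e1 : ∀ i z, fderiv ℝ (fun y => φ y i) z (Pi.single i 1) = - cv (pd ρ i) (ψ i) z := by
    intro i z
    rw [← m.cv_pd (hψi i) i z]
    simp only [hφ]
    rw [fderiv_fun_neg]; rfl
  simp only [e1]
  have hcc : ∀ i, Continuous (cv (pd ρ i) (ψ i)) := by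
    intro i
    have : cv (pd ρ i) (ψ i) = fun x => fderiv ℝ (cv ρ (ψ i)) x (Pi.single i 1) :=
      funext fun x => (m.cv_pd (hψi i) i x).symm
    rw [this]
    exact ((m.cv_smooth (hψi i)).continuous_fderiv one_ne_zero).clm_apply continuous_const
  have hbc : ∀ (h : (Fin d → ℝ) → ℝ), Integrable h → ∀ i z,
      |cv (pd ρ i) h z| ≤ ∫ t, |h t| * M := by
    intro h hh i z
    rw [← Real.norm_eq_abs, cv]
    refine norm_integral_le_of_norm_le (hh.abs.mul_const M)
      (Filter.Eventually.of_forall fun t => ?_)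
    rw [Real.norm_eq_abs, abs_mul]
    exact mul_le_mul_of_nonneg_left (hM _ _) (abs_nonneg _)
  have e2 : ∫ z in E, ∑ i, -cv (pd ρ i) (ψ i) z = ∑ i, ∫ z, u z * -cv (pd ρ i) (ψ i) z := by
    rw [← integral_finsetSum, ← integral_indicator hE]
    · congr 1; funext z
      by_cases hz : z ∈ E
      · simp [hu, indicator_of_mem hz]
      · simp [hu, indicator_of_notMem hz]
    · intro i _
      exact hEi.mul_bdd (c := ∫ t, |ψ i t| * M) (hcc i).neg.aestronglyMeasurable
        (Filter.Eventually.of_forall fun z => by rw [norm_neg]; exact hbc _ (hψi i) i z)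
  have e3 : ∀ i, ∫ z, u z * -cv (pd ρ i) (ψ i) z = ∫ t, ψ i t * g i t := by
    intro i
    have s := swap_lemma hEi (hψi i) (m.cont_pd i) (hM i)
    simp only [mul_neg, integral_neg, cv, hg]
    rw [s, ← integral_neg]
    congr 1; funext t
    rw [← mul_neg, ← integral_neg]
    congr 2; funext z
    rw [← mul_neg, ← m.odd_pd, neg_sub]
  rw [e2]
  simp only [e3]
  rw [← integral_finsetSum, box_eq, ← integral_indicator hKm]
  · congr 1; funext t
    by_cases ht : t ∈ K
    · simp only [hψ, indicator_of_mem ht]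
      have : ∑ i, g i t / N t * g i t = N t ^ 2 / N t := by
        rw [hN2, Finset.sum_div]
        exact Finset.sum_congr rfl fun i _ => by ring
      rw [this]
      by_cases h0 : N t = 0
      · rw [h0]; simpa using h0
      · field_simp; rfl
    · simp [hψ, indicator_of_notMem ht]
  · intro i _
    exact (hψi i).mul_bdd (c := ∫ t, |u t| * M) (hgc i).aestronglyMeasurable
      (Filter.Eventually.of_forall fun z => hbc _ hEi i z)

theorem moll_ineq (m : Moll ρ δ) {a L r : ℝ} (hδ : δ < a) (hL : a + L = 1 - a) (hL0 : 0 < L)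
    (hL1 : L ≤ 1) {E : Set (Fin d → ℝ)} (hE : MeasurableSet E)
    (hEi : Integrable (E.indicator fun _ => (1:ℝ))) (H : PerLe E r) :
    L ^ d * J ((∫ x, cv ρ (E.indicator fun _ => 1) x ∂(box a L d)) / L ^ d) ≤
      (∫ x, J (cv ρ (E.indicator fun _ => 1) x) ∂(box a L d)) + r := by
  have hdual := dual_bound m hδ hL hE hEi H
  set u : (Fin d → ℝ) → ℝ := E.indicator fun _ => 1 with hu
  have hum : Measurable u := measurable_const.indicator hE
  have hu0 : ∀ t, 0 ≤ u t := fun t => indicator_nonneg (fun _ _ => zero_le_one) t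
  have hu1 : ∀ t, u t ≤ 1 := fun t => indicator_le_self' (fun _ _ => zero_le_one) t
  have hua : ∀ t, |u t| ≤ 1 := fun t => by rw [abs_of_nonneg (hu0 t)]; exact hu1 t
  have hs := m.cv_smooth hEi
  have hgc : ∀ i, Continuous (cv (pd ρ i) u) := by
    intro i
    have : cv (pd ρ i) u = fun x => fderiv ℝ (cv ρ u) x (Pi.single i 1) :=
      funext fun x => (m.cv_pd hEi i x).symm
    rw [this]
    exact (hs.continuous_fderiv one_ne_zero).clm_apply continuous_const
  obtain ⟨M, hM⟩ := m.bdd_pd
  have hbc : ∀ i z, |cv (pd ρ i) u z| ≤ ∫ t, |u t| * M := by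
    intro i z
    rw [← Real.norm_eq_abs, cv]
    refine norm_integral_le_of_norm_le (hEi.abs.mul_const M)
      (Filter.Eventually.of_forall fun t => ?_)
    rw [Real.norm_eq_abs, abs_mul]
    exact mul_le_mul_of_nonneg_left (hM _ _) (abs_nonneg _)
  have h0 : ∀ x, 0 ≤ cv ρ u x := fun x =>
    integral_nonneg fun t => mul_nonneg (hu0 t) (m.nonneg _)
  have h1 : ∀ x, cv ρ u x ≤ 1 := m.cv_le hum hua hu1
  have hb := bobkov (a := a) hL0 hL1 d (cv ρ u) (fun i => cv (pd ρ i) u) _ hs.continuous hgc h0 h1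
    hbc (fun i x s => by
      rw [← m.cv_pd hEi]
      exact ((hs.differentiable one_ne_zero) _).hasFDerivAt.comp_hasDerivAt s
        (hasDerivAt_update x i s))
  refine hb.trans (le_trans ?_ (add_le_add_right hdual _))
  have i1 : Integrable (fun x => J (cv ρ u x)) (box a L d) :=
    int_bdd _ (continuous_J.comp hs.continuous) fun x => abs_J_le (h0 x) (h1 x)
  have i2 : Integrable (fun x => √(∑ i, cv (pd ρ i) u x ^ 2)) (box a L d) := by
    refine int_bdd _ ((continuous_finsetSum _ fun i _ => (hgc i).pow 2).sqrt)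
      (M := √(1 + d * (∫ t, |u t| * M) ^ 2)) fun x => ?_
    have := sqrt_bound (j := 0) (g := fun i => cv (pd ρ i) u x) (by simp) fun i => hbc i x
    simpa using this
  rw [← integral_add i1 i2]
  refine integral_mono_of_nonneg (Filter.Eventually.of_forall fun x => Real.sqrt_nonneg _)
    (i1.add i2) (Filter.Eventually.of_forall fun x => ?_)
  have hJ := J_nonneg (h0 x) (h1 x)
  have hS : 0 ≤ ∑ i, cv (pd ρ i) u x ^ 2 := by positivity
  refine Real.sqrt_le_iff.mpr ⟨by positivity, ?_⟩
  have := Real.sq_sqrt hS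
  nlinarith [mul_nonneg hJ (Real.sqrt_nonneg (∑ i, cv (pd ρ i) u x ^ 2))]

end Pool.Agent.H522Z.Cube
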