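import Pool.Agent.H522Z.Cube.CoreB

set_option autoImplicit false

open MeasureTheory Set

namespace Pool.Agent.H522Z.Cube

lemma cs2 {a b x y : ℝ} (h : a ^ 2 + b ^ 2 ≤ 1) : a * x + b * y ≤ √(x ^ 2 + y ^ 2) := by
  refine le_trans (le_abs_self _) (Real.abs_le_sqrt ?_)
  have h1 : (a * x + b * y) ^ 2 ≤ (a ^ 2 + b ^ 2) * (x ^ 2 + y ^ 2) := by
    nlinarith [sq_nonneg (a * y - b * x)]
  nlinarith [sq_nonneg x, sq_nonneg y]

/-- the one-dimensional inequality on an interval of length `L ≤ 1` -/
theorem bobkov1 {a L : ℝ} (hL0 : 0 < L) (hL1 : L ≤ 1) {F G : ℝ → ℝ}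
    (hF : ∀ t, HasDerivAt F (G t) t) (hG : Continuous G) (h0 : ∀ t, 0 ≤ F t) (h1 : ∀ t, F t ≤ 1) :
    L * J ((∫ t in a..(a + L), F t) / L) ≤ ∫ t in a..(a + L), √(J (F t) ^ 2 + G t ^ 2) := by
  have hFc : Continuous F := continuous_iff_continuousAt.mpr fun t => (hF t).continuousAt
  have hab : a ≤ a + L := by linarith
  obtain ⟨x₀, hx₀, hmin⟩ := isCompact_Icc.exists_isMinOn (nonempty_Icc.mpr hab) hFc.continuousOn
  obtain ⟨x₁, hx₁, hmax⟩ := isCompact_Icc.exists_isMaxOn (nonempty_Icc.mpr hab) hFc.continuousOn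
  set l := (∫ t in a..(a + L), F t) / L with hl
  have hlL : ∫ t in a..(a + L), F t = l * L := by rw [hl]; field_simp
  have hAl : F x₀ ≤ l := by
    rw [hl, le_div_iff₀ hL0]
    have := intervalIntegral.integral_mono_on (μ := volume) hab (intervalIntegrable_const (c := F x₀))
      (hFc.intervalIntegrable _ _) fun t ht => hmin ht
    simp at this; linarith
  have hlB : l ≤ F x₁ := by
    rw [hl, div_le_iff₀ hL0]
    have := intervalIntegral.integral_mono_on (μ := volume) hab (hFc.intervalIntegrable _ _)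
      (intervalIntegrable_const (c := F x₁)) fun t ht => hmax ht
    simp at this; linarith
  obtain ⟨c₀, c₁, b, hb, hpt, hJ⟩ := good_all (h0 x₀) hAl hlB (h1 x₁)
  have hmem : ∀ t ∈ Icc a (a + L), F t ∈ Icc (F x₀) (F x₁) := fun t ht => ⟨hmin ht, hmax ht⟩
  have hbF : ContinuousOn (fun t => b (F t)) (Icc a (a + L)) :=
    hb.comp hFc.continuousOn hmem
  have hi1 : IntervalIntegrable (fun t => b (F t) * |G t|) volume a (a + L) := by
    refine ContinuousOn.intervalIntegrable ?_
    rw [uIcc_of_le hab]; exact hbF.mul hG.abs.continuousOn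
  have hsub : uIcc x₀ x₁ ⊆ Icc a (a + L) := uIcc_subset_Icc hx₀ hx₁
  have hcv : ∫ t in x₀..x₁, (b ∘ F) t * G t = ∫ s in F x₀..F x₁, b s :=
    intervalIntegral.integral_comp_mul_deriv'' hFc.continuousOn
      (fun t _ => (hF t).hasDerivWithinAt) hG.continuousOn
      (hb.mono (by rintro _ ⟨t, ht, rfl⟩; exact hmem t (hsub ht)))
  have hnn : ∀ t ∈ Icc a (a + L), 0 ≤ b (F t) := fun t ht => (hpt _ (hmem t ht)).1
  have hvar : ∫ s in F x₀..F x₁, b s ≤ ∫ t in a..(a + L), b (F t) * |G t| := by
    rw [← hcv]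
    refine le_trans (le_abs_self _) ?_
    have e : ∀ u v, u ∈ Icc a (a + L) → v ∈ Icc a (a + L) → u ≤ v →
        |∫ t in u..v, (b ∘ F) t * G t| ≤ ∫ t in a..(a + L), b (F t) * |G t| := by
      intro u v hu hv huv
      refine (intervalIntegral.abs_integral_le_integral_abs huv).trans ?_
      have e1 : ∫ t in u..v, |(b ∘ F) t * G t| = ∫ t in u..v, b (F t) * |G t| := by
        refine intervalIntegral.integral_congr fun t ht => ?_
        rw [uIcc_of_le huv] at ht
        simp only [Function.comp, abs_mul, abs_of_nonneg (hnn t ⟨hu.1.trans ht.1, ht.2.trans hv.2⟩)]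
      rw [e1]
      refine intervalIntegral.integral_mono_interval hu.1 huv hv.2 ?_ hi1
      refine (ae_restrict_iff' measurableSet_Ioc).mpr (Filter.Eventually.of_forall fun t ht => ?_)
      exact mul_nonneg (hnn t (Ioc_subset_Icc_self ht)) (abs_nonneg _)
    rcases le_total x₀ x₁ with h | h
    · exact e _ _ hx₀ hx₁ h
    · rw [intervalIntegral.integral_symm, abs_neg]; exact e _ _ hx₁ hx₀ h
  have hI0 : 0 ≤ ∫ s in F x₀..F x₁, b s :=
    intervalIntegral.integral_nonneg (hAl.trans hlB) fun s hs => (hpt s hs).1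
  have hlow : ∫ t in a..(a + L), (c₀ + c₁ * F t + b (F t) * |G t|) ≤
      ∫ t in a..(a + L), √(J (F t) ^ 2 + G t ^ 2) := by
    refine intervalIntegral.integral_mono_on hab
      (((continuous_const.add (continuous_const.mul hFc)).intervalIntegrable _ _).add hi1)
      (Continuous.intervalIntegrable
        ((((continuous_J.comp hFc).pow 2).add (hG.pow 2)).sqrt) _ _) fun t ht => ?_
    obtain ⟨p1, p2, p3⟩ := hpt _ (hmem t ht)
    have := cs2 (a := √(1 - b (F t) ^ 2)) (b := b (F t)) (x := J (F t)) (y := |G t|)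
      (by rw [Real.sq_sqrt (by nlinarith)]; linarith)
    rw [sq_abs] at this
    linarith
  have hi2 : IntervalIntegrable (fun t => c₁ * F t) volume a (a + L) :=
    (hFc.intervalIntegrable _ _).const_mul _
  have hi3 : IntervalIntegrable (fun t => c₀ + c₁ * F t) volume a (a + L) :=
    intervalIntegrable_const.add hi2
  rw [intervalIntegral.integral_add hi3 hi1,
    intervalIntegral.integral_add intervalIntegrable_const hi2,
    intervalIntegral.integral_const_mul, hlL, intervalIntegral.integral_const] at hlow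
  simp only [add_sub_cancel_left, smul_eq_mul] at hlow
  nlinarith

/-- the measure on the box -/
noncomputable def mu1 (a L : ℝ) : Measure ℝ := volume.restrict (Icc a (a + L))

instance (a L : ℝ) : IsFiniteMeasure (mu1 a L) := by unfold mu1; infer_instance

/-- product measure on the box -/
noncomputable def box (a L : ℝ) (d : ℕ) : Measure (Fin d → ℝ) := Measure.pi fun _ => mu1 a L

instance (a L : ℝ) (d : ℕ) : IsFiniteMeasure (box a L d) := by unfold box; infer_instance

lemma box_univ (a : ℝ) {L : ℝ} (hL : 0 ≤ L) (d : ℕ) : (box a L d).real univ = L ^ d := by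
  unfold box mu1
  rw [Measure.real, Measure.pi_univ]
  simp [hL]

lemma int_bdd {X : Type} [MeasurableSpace X] [TopologicalSpace X] [OpensMeasurableSpace X]
    (μ : Measure X) [IsFiniteMeasure μ] {f : X → ℝ} (hf : Continuous f) {M : ℝ}
    (hM : ∀ x, |f x| ≤ M) : Integrable f μ :=
  Integrable.of_bound hf.aestronglyMeasurable M (Filter.Eventually.of_forall hM)

lemma minkowski2 {X : Type} [MeasurableSpace X] (μ : Measure X) {u v : X → ℝ}
    (hu : Integrable u μ) (hv : Integrable v μ) (huv : Integrable (fun x => √(u x ^ 2 + v x ^ 2)) μ) :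
    √((∫ x, u x ∂μ) ^ 2 + (∫ x, v x ∂μ) ^ 2) ≤ ∫ x, √(u x ^ 2 + v x ^ 2) ∂μ := by
  set U := ∫ x, u x ∂μ
  set V := ∫ x, v x ∂μ
  set N := √(U ^ 2 + V ^ 2) with hN
  have hN0 : 0 ≤ N := Real.sqrt_nonneg _
  have hN2 : N ^ 2 = U ^ 2 + V ^ 2 := Real.sq_sqrt (by positivity)
  rcases eq_or_lt_of_le hN0 with h | h
  · rw [← h]; exact integral_nonneg fun x => Real.sqrt_nonneg _
  have e : N = ∫ x, (U / N * u x + V / N * v x) ∂μ := by
    rw [integral_add (hu.const_mul _) (hv.const_mul _), integral_const_mul, integral_const_mul]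
    field_simp; linarith
  rw [e]
  refine integral_mono ((hu.const_mul _).add (hv.const_mul _)) huv fun x => cs2 ?_
  rw [div_pow, div_pow, ← add_div, ← hN2, div_self (by positivity)]

lemma int_cons (a L : ℝ) (d : ℕ) {h : (Fin (d+1) → ℝ) → ℝ} (hc : Continuous h) {M : ℝ}
    (hM : ∀ x, |h x| ≤ M) :
    ∫ x, h x ∂(box a L (d+1)) = ∫ t, (∫ y, h (Fin.cons t y) ∂(box a L d)) ∂(mu1 a L) := by
  have mp := (measurePreserving_piFinSuccAbove (fun _ : Fin (d+1) => mu1 a L) 0).symm
  have e := mp.integral_comp' h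
  unfold box
  rw [← e, integral_prod]
  · congr 1; funext t; congr 1; funext y
    simp [MeasurableEquiv.piFinSuccAbove_symm_apply, Fin.insertNthEquiv]
  · exact (mp.integrable_comp_of_integrable (int_bdd _ hc hM))

lemma cont_cons (d : ℕ) : Continuous fun p : ℝ × (Fin d → ℝ) => (Fin.cons p.1 p.2 : Fin (d+1) → ℝ) := by
  refine continuous_pi fun i => ?_
  refine Fin.cases ?_ (fun j => ?_) i
  · simpa using continuous_fst
  · simp only [Fin.cons_succ]; fun_prop

lemma abs_J_le {s : ℝ} (h0 : 0 ≤ s) (h1 : s ≤ 1) : |J s| ≤ 1 := by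
  rw [abs_of_nonneg (J_nonneg h0 h1)]; exact J_le_one s

lemma sqrt_bound {d : ℕ} {j M : ℝ} {g : Fin d → ℝ} (hj : |j| ≤ 1) (hg : ∀ i, |g i| ≤ M) :
    |√(j ^ 2 + ∑ i, g i ^ 2)| ≤ √(1 + d * M ^ 2) := by
  rw [abs_of_nonneg (Real.sqrt_nonneg _)]
  refine Real.sqrt_le_sqrt (add_le_add ?_ ?_)
  · rw [← sq_abs]; nlinarith [abs_nonneg j]
  · calc ∑ i, g i ^ 2 ≤ ∑ _i : Fin d, M ^ 2 := Finset.sum_le_sum fun i _ => by
          rw [← sq_abs]; exact pow_le_pow_left₀ (abs_nonneg _) (hg i) 2
      _ = d * M ^ 2 := by simp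

/-- the tensorised inequality -/
theorem bobkov {a L : ℝ} (hL0 : 0 < L) (hL1 : L ≤ 1) (d : ℕ) :
    ∀ (f : (Fin d → ℝ) → ℝ) (g : Fin d → (Fin d → ℝ) → ℝ) (M : ℝ), Continuous f →
      (∀ i, Continuous (g i)) → (∀ x, 0 ≤ f x) → (∀ x, f x ≤ 1) → (∀ i x, |g i x| ≤ M) →
      (∀ i x s, HasDerivAt (fun s => f (Function.update x i s)) (g i (Function.update x i s)) s) →
      L ^ d * J ((∫ x, f x ∂(box a L d)) / L ^ d) ≤
        ∫ x, √(J (f x) ^ 2 + ∑ i, g i x ^ 2) ∂(box a L d) := by
  induction d with
  | zero =>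
    intro f g M _ _ h0 h1 _ _
    have e : ∀ h : (Fin 0 → ℝ) → ℝ, ∫ x, h x ∂(box a L 0) = h default := by
      intro h
      rw [integral_unique, box_univ a hL0.le, pow_zero, one_smul]
      exact congrArg h (Subsingleton.elim _ _)
    rw [e, e]
    simp [Real.sqrt_sq (J_nonneg (h0 _) (h1 _))]
  | succ d ih =>
    intro f g M hf hg h0 h1 hM hd
    have hLd : 0 < L ^ d := by positivity
    have hf1 : ∀ x, |f x| ≤ 1 := fun x => by rw [abs_of_nonneg (h0 x)]; exact h1 x
    have hct : ∀ t : ℝ, Continuous fun y : Fin d → ℝ => (Fin.cons t y : Fin (d+1) → ℝ) :=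
      fun t => (cont_cons d).comp (Continuous.prodMk continuous_const continuous_id)
    set F : ℝ → ℝ := fun t => (∫ y, f (Fin.cons t y) ∂(box a L d)) / L ^ d with hFd
    set G : ℝ → ℝ := fun t => (∫ y, g 0 (Fin.cons t y) ∂(box a L d)) / L ^ d with hGd
    have hF : ∀ t, HasDerivAt F (G t) t := by
      intro t
      refine HasDerivAt.div_const ?_ _
      refine (hasDerivAt_integral_of_dominated_loc_of_deriv_le (μ := box a L d)
        (F := fun t y => f (Fin.cons t y)) (F' := fun t y => g 0 (Fin.cons t y))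
        (bound := fun _ => M) (s := univ) Filter.univ_mem
        (Filter.Eventually.of_forall fun t => (hf.comp (hct t)).aestronglyMeasurable)
        (int_bdd _ (hf.comp (hct t)) fun y => hf1 _)
        ((hg 0).comp (hct t)).aestronglyMeasurable
        (Filter.Eventually.of_forall fun y s _ => hM _ _) (integrable_const _)
        (Filter.Eventually.of_forall fun y s _ => ?_)).2
      have := hd 0 (Fin.cons s y) s
      simpa only [Fin.update_cons_zero] using this
    have hG : Continuous G := by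
      refine Continuous.div_const ?_ _
      refine continuous_of_dominated (bound := fun _ => M)
        (fun t => ((hg 0).comp (hct t)).aestronglyMeasurable)
        (fun t => Filter.Eventually.of_forall fun y => hM _ _) (integrable_const _)
        (Filter.Eventually.of_forall fun y => ?_)
      exact (hg 0).comp ((cont_cons d).comp (Continuous.prodMk continuous_id continuous_const))
    have hF0 : ∀ t, 0 ≤ F t := fun t => div_nonneg (integral_nonneg fun y => h0 _) hLd.le
    have hF1 : ∀ t, F t ≤ 1 := by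
      intro t
      rw [hFd]
      simp only
      rw [div_le_one hLd]
      have := integral_mono (μ := box a L d) (int_bdd _ (hf.comp (hct t)) fun y => hf1 _)
        (integrable_const (1:ℝ)) fun y => h1 _
      rw [integral_const, box_univ a hL0.le, smul_eq_mul, mul_one] at this
      exact this
    have hb1 := bobkov1 (a := a) hL0 hL1 hF hG hF0 hF1
    have hab : a ≤ a + L := by linarith
    have toI : ∀ h : ℝ → ℝ, ∫ t, h t ∂(mu1 a L) = ∫ t in a..(a + L), h t := by
      intro h
      unfold mu1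
      rw [intervalIntegral.integral_of_le hab, integral_Icc_eq_integral_Ioc]
    have hcont : Continuous fun x => √(J (f x) ^ 2 + ∑ i, g i x ^ 2) :=
      (((continuous_J.comp hf).pow 2).add
        (continuous_finsetSum _ fun i _ => (hg i).pow 2)).sqrt
    have hbd : ∀ x, |√(J (f x) ^ 2 + ∑ i, g i x ^ 2)| ≤ √(1 + (d + 1 : ℕ) * M ^ 2) :=
      fun x => sqrt_bound (abs_J_le (h0 x) (h1 x)) fun i => hM i x
    rw [int_cons a L d hf hf1, int_cons a L d hcont hbd, toI, toI]
    have e1 : (∫ t in a..(a + L), ∫ y, f (Fin.cons t y) ∂(box a L d)) / L ^ (d + 1) =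
        (∫ t in a..(a + L), F t) / L := by
      rw [hFd, intervalIntegral.integral_div, pow_succ, div_div]
    rw [e1]
    have hFc : Continuous F := continuous_iff_continuousAt.mpr fun t => (hF t).continuousAt
    have key : ∀ t, L ^ d * √(J (F t) ^ 2 + G t ^ 2) ≤
        ∫ y, √(J (f (Fin.cons t y)) ^ 2 + ∑ i, g i (Fin.cons t y) ^ 2) ∂(box a L d) := by
      intro t
      have ih' := ih (fun y => f (Fin.cons t y)) (fun i y => g i.succ (Fin.cons t y)) M
        (hf.comp (hct t)) (fun i => (hg _).comp (hct t)) (fun y => h0 _) (fun y => h1 _)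
        (fun i y => hM _ _) (fun i y s => by
          have := hd i.succ (Fin.cons t y) s
          simpa only [Fin.cons_update] using this)
      have hcu : Continuous fun y : Fin d → ℝ =>
          √(J (f (Fin.cons t y)) ^ 2 + ∑ i : Fin d, g i.succ (Fin.cons t y) ^ 2) :=
        (((continuous_J.comp (hf.comp (hct t))).pow 2).add
          (continuous_finsetSum _ fun i _ => ((hg _).comp (hct t)).pow 2)).sqrt
      have e2 : ∀ y : Fin d → ℝ,
          √(J (f (Fin.cons t y)) ^ 2 + ∑ i, g i (Fin.cons t y) ^ 2) =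
          √(√(J (f (Fin.cons t y)) ^ 2 + ∑ i : Fin d, g i.succ (Fin.cons t y) ^ 2) ^ 2 +
            g 0 (Fin.cons t y) ^ 2) := by
        intro y
        rw [Real.sq_sqrt (by positivity), Fin.sum_univ_succ]; congr 1; ring
      have hmk := minkowski2 (box a L d)
        (int_bdd _ hcu fun y => sqrt_bound (abs_J_le (h0 _) (h1 _)) fun i => hM _ _)
        (int_bdd _ ((hg 0).comp (hct t)) fun y => hM _ _)
        (by
          have := int_bdd (box a L d) (hcont.comp (hct t)) fun y => hbd _
          simp only [Function.comp_def] at this ⊢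
          simpa only [e2] using this)
      simp only [Function.comp_def] at hmk
      simp only [e2]
      refine le_trans ?_ hmk
      rw [← Real.sqrt_sq hLd.le, ← Real.sqrt_mul (sq_nonneg _)]
      refine Real.sqrt_le_sqrt ?_
      have e3 : ∫ y, g 0 (Fin.cons t y) ∂(box a L d) = L ^ d * G t := by
        rw [hGd]; field_simp
      rw [e3]
      have e4 : 0 ≤ L ^ d * J (F t) := mul_nonneg hLd.le (J_nonneg (hF0 t) (hF1 t))
      have e5 := pow_le_pow_left₀ e4 ih' 2
      nlinarith
    have hcI : Continuous fun t => ∫ y,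
        √(J (f (Fin.cons t y)) ^ 2 + ∑ i, g i (Fin.cons t y) ^ 2) ∂(box a L d) := by
      refine continuous_of_dominated (bound := fun _ => √(1 + (d + 1 : ℕ) * M ^ 2))
        (fun t => (hcont.comp (hct t)).aestronglyMeasurable)
        (fun t => Filter.Eventually.of_forall fun y => hbd _) (integrable_const _)
        (Filter.Eventually.of_forall fun y => ?_)
      exact hcont.comp ((cont_cons d).comp (Continuous.prodMk continuous_id continuous_const))
    have hfin := intervalIntegral.integral_mono_on (μ := volume) hab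
      (Continuous.intervalIntegrable (continuous_const.mul
        ((((continuous_J.comp hFc).pow 2).add (hG.pow 2)).sqrt)) _ _)
      (hcI.intervalIntegrable _ _) fun t _ => key t
    refine le_trans ?_ hfin
    simp only [Function.comp_def, Pi.mul_apply, Pi.add_apply, Pi.pow_apply]
    rw [intervalIntegral.integral_const_mul, pow_succ, mul_assoc]
    exact mul_le_mul_of_nonneg_left hb1 hLd.le

end Pool.Agent.H522Z.Cube
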